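import Pool.Agent.H85.Zar.OpenDefs

set_option linter.style.longLine false

/-! The combinatorics of Zariski's stratification: existence and uniqueness from a finite table of
closed sets with known non-equisingular loci. -/

namespace H51.Zar

open MvPolynomial H9.Zar

universe v

variable {k : Type v} [Field k] {r : ℕ}

/-- `E_0, ..., E_N` is Zariski's stratification of the hypersurface `V : F = 0` of the open set
`U` of affine `(r+1)`-space: all the properties listed in the problem. -/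
structure IsZStrat (F : MvPolynomial (Fin (r + 1)) k) (U : Set (Fin (r + 1) → k)) (N : ℕ)
    (E : Fin (N + 1) → Set (Fin (r + 1) → k)) : Prop where
  /-- `E_0` is the set of simple points -/
  zero : E 0 = simplePts F ∩ U
  /-- the strata are distinct -/
  inj : Function.Injective E
  /-- `V` is the union of the strata -/
  cover : ⋃ i, E i = {Q ∈ U | eval Q F = 0}
  /-- for `i ≥ 1` the closure of `E_i` is irreducible -/
  irr : ∀ i, i ≠ 0 → IrrClosedIn U (zcl (E i) ∩ U)
  /-- for `i ≥ 1`, `E_i` is the set of the points of its closure at which `V` is equisingular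
  along it -/
  char : ∀ i, i ≠ 0 → E i = {Q ∈ zcl (E i) ∩ U | EquisingAt F Q (vanishingIdeal k (E i))}
  /-- each `closure (E_i) \ E_i` is a union of strata -/
  union : ∀ i, ∃ J : Set (Fin (N + 1)), (zcl (E i) ∩ U) \ E i = ⋃ j ∈ J, E j
  /-- for `a ≥ 1` the closure of `E_a` is an irreducible component of some
  `closure (E_i) \ E_i` -/
  comp : ∀ a, a ≠ 0 → ∃ i, IsCompIn U ((zcl (E i) ∩ U) \ E i) (zcl (E a) ∩ U)

/-- A finite table of irreducible closed subsets `Z_i` of the singular locus of `V`, with known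
loci of non-equisingularity: the irreducible components of the singular locus are the `Z_i`,
`i ∈ top`; those of the locus of the points of `Z_i` at which `V` is not equisingular along `Z_i`
are the `Z_j`, `j ∈ J i`; every `i` occurs in `top` or in some `J j`. -/
structure IsTable (F : MvPolynomial (Fin (r + 1)) k) (U : Set (Fin (r + 1) → k)) {ι : Type}
    (Z : ι → Set (Fin (r + 1) → k)) (top : Set ι) (J : ι → Set ι) : Prop where
  irr : ∀ i, IrrClosedIn U (Z i)
  inj : Function.Injective Z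
  dense : zcl (simplePts F ∩ U) ∩ U = {Q ∈ U | eval Q F = 0}
  sing : singPts F ∩ U = ⋃ i ∈ top, Z i
  top_inc : ∀ i ∈ top, ∀ j ∈ top, Z i ⊆ Z j → i = j
  bad : ∀ i, {Q ∈ Z i | ¬ EquisingAt F Q (vanishingIdeal k (Z i))} = ⋃ j ∈ J i, Z j
  J_inc : ∀ i, ∀ j ∈ J i, ∀ l ∈ J i, Z j ⊆ Z l → j = l
  J_ne : ∀ i, i ∉ J i
  reach : ∀ i, i ∈ top ∨ ∃ j, i ∈ J j

/-! ### Zariski closure -/

theorem subset_zcl (A : Set (Fin (r + 1) → k)) : A ⊆ zcl A :=
  zeroLocus_vanishingIdeal_le A

theorem zcl_mono {A B : Set (Fin (r + 1) → k)} (h : A ⊆ B) : zcl A ⊆ zcl B :=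
  zeroLocus_anti_mono (vanishingIdeal_anti_mono h)

theorem vanishingIdeal_zcl (A : Set (Fin (r + 1) → k)) :
    vanishingIdeal k (zcl A) = vanishingIdeal k A :=
  le_antisymm (vanishingIdeal_anti_mono (subset_zcl A)) (le_vanishingIdeal_zeroLocus _)

theorem zcl_zcl (A : Set (Fin (r + 1) → k)) : zcl (zcl A) = zcl A := by
  unfold zcl
  rw [show vanishingIdeal k (zeroLocus k (vanishingIdeal k A)) = vanishingIdeal k A from
    vanishingIdeal_zcl A]

theorem vanishingIdeal_zcl_inter {A U : Set (Fin (r + 1) → k)} (hA : A ⊆ U) :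
    vanishingIdeal k (zcl A ∩ U) = vanishingIdeal k A := by
  refine le_antisymm (vanishingIdeal_anti_mono fun x hx => ⟨subset_zcl A hx, hA hx⟩) ?_
  exact (le_vanishingIdeal_zeroLocus _).trans (vanishingIdeal_anti_mono fun x hx => hx.1)

theorem zcl_inter_eq {A U : Set (Fin (r + 1) → k)} (hA : A ⊆ U) : zcl (zcl A ∩ U) = zcl A := by
  unfold zcl
  rw [show vanishingIdeal k (zeroLocus k (vanishingIdeal k A) ∩ U) = vanishingIdeal k A from
    vanishingIdeal_zcl_inter hA]

theorem irr_nonempty {U Z : Set (Fin (r + 1) → k)} (h : IrrClosedIn U Z) : Z.Nonempty := by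
  rw [Set.nonempty_iff_ne_empty]
  intro h0
  have h1 := h.2
  rw [h0, vanishingIdeal_empty] at h1
  exact h1.ne_top rfl

theorem irr_subset {U Z : Set (Fin (r + 1) → k)} (h : IrrClosedIn U Z) : Z ⊆ U := by
  rw [← h.1]
  exact fun x hx => hx.2

/-- An irreducible set contained in a finite union of closed sets is contained in one of them. -/
theorem subset_of_subset_iUnion {ι : Type} [Finite ι] {Z : Set (Fin (r + 1) → k)}
    (hZ : (vanishingIdeal k Z).IsPrime) (J : Set ι) (A : ι → Set (Fin (r + 1) → k))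
    (h : Z ⊆ ⋃ j ∈ J, zcl (A j)) : ∃ j ∈ J, Z ⊆ zcl (A j) := by
  classical
  by_contra hcon
  push Not at hcon
  have h1 : ∀ j ∈ J, ∃ f ∈ vanishingIdeal k (A j), f ∉ vanishingIdeal k Z := by
    intro j hj
    by_contra h2
    push Not at h2
    exact hcon j hj ((subset_zcl Z).trans (zeroLocus_anti_mono h2))
  choose! f hf1 hf2 using h1
  have hfin : J.Finite := Set.toFinite J
  have h3 : ∏ j ∈ hfin.toFinset, f j ∈ vanishingIdeal k Z := by
    intro x hx
    obtain ⟨j, hj⟩ := Set.mem_iUnion.1 (h hx)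
    obtain ⟨hjJ, hxj⟩ := Set.mem_iUnion.1 hj
    rw [map_prod]
    exact Finset.prod_eq_zero (hfin.mem_toFinset.2 hjJ) (hxj _ (hf1 j hjJ))
  rw [hZ.prod_mem_iff] at h3
  obtain ⟨j, hj, h4⟩ := h3
  exact hf2 j (hfin.mem_toFinset.1 hj) h4

/-- The same in the open set `U`. -/
theorem subset_of_subset_iUnion_in {ι : Type} [Finite ι] {U Z : Set (Fin (r + 1) → k)}
    (hZ : IrrClosedIn U Z) (J : Set ι) (A : ι → Set (Fin (r + 1) → k))
    (h : Z ⊆ ⋃ j ∈ J, (zcl (A j) ∩ U)) : ∃ j ∈ J, Z ⊆ zcl (A j) ∩ U := by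
  obtain ⟨j, hj, h1⟩ := subset_of_subset_iUnion hZ.2 J A
    (h.trans (Set.iUnion₂_mono fun j _ => Set.inter_subset_left))
  exact ⟨j, hj, fun x hx => ⟨h1 hx, irr_subset hZ hx⟩⟩

/-- A finite union of closed subsets of `U` is closed in `U`. -/
theorem zcl_iUnion_in {ι : Type} [Finite ι] {U : Set (Fin (r + 1) → k)} (J : Set ι)
    (A : ι → Set (Fin (r + 1) → k)) (hA : ∀ j ∈ J, zcl (A j) ∩ U = A j) :
    zcl (⋃ j ∈ J, A j) ∩ U = ⋃ j ∈ J, A j := by
  classical
  refine subset_antisymm ?_ fun x hx => ⟨subset_zcl _ hx, ?_⟩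
  · rintro x ⟨hx, hxU⟩
    by_contra hcon
    have h1 : ∀ j ∈ J, ∃ f ∈ vanishingIdeal k (A j), aeval x f ≠ 0 := by
      intro j hj
      by_contra h2
      push Not at h2
      apply hcon
      refine Set.mem_iUnion₂.2 ⟨j, hj, ?_⟩
      rw [← hA j hj]
      exact ⟨h2, hxU⟩
    choose! f hf1 hf2 using h1
    have hfin : J.Finite := Set.toFinite J
    have h3 : ∏ j ∈ hfin.toFinset, f j ∈ vanishingIdeal k (⋃ j ∈ J, A j) := by
      intro y hy
      obtain ⟨j, hjJ, hyj⟩ := Set.mem_iUnion₂.1 hy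
      rw [map_prod]
      exact Finset.prod_eq_zero (hfin.mem_toFinset.2 hjJ) (hf1 j hjJ y hyj)
    have h4 := hx _ h3
    rw [map_prod, Finset.prod_eq_zero_iff] at h4
    obtain ⟨j, hj, h5⟩ := h4
    exact hf2 j (hfin.mem_toFinset.1 hj) h5
  · obtain ⟨j, hjJ, hxj⟩ := Set.mem_iUnion₂.1 hx
    rw [← hA j hjJ] at hxj
    exact hxj.2

/-! ### Consequences of a table -/

section Table

variable {F : MvPolynomial (Fin (r + 1)) k} {U : Set (Fin (r + 1) → k)} {ι : Type}
  {Z : ι → Set (Fin (r + 1) → k)} {top : Set ι} {J : ι → Set ι}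

/-- `Z_j` is smaller than `Z_i` for `j ∈ J i`. -/
theorem IsTable.sub (h : IsTable F U Z top J) {i j : ι} (hj : j ∈ J i) : Z j ⊆ Z i := by
  intro x hx
  have h1 : x ∈ ⋃ j ∈ J i, Z j := Set.mem_iUnion₂.2 ⟨j, hj, hx⟩
  rw [← h.bad i] at h1
  exact h1.1

theorem IsTable.ssub (h : IsTable F U Z top J) {i j : ι} (hj : j ∈ J i) : Z j ⊂ Z i := by
  refine ⟨h.sub hj, fun h1 => ?_⟩
  have h2 := h.inj (subset_antisymm (h.sub hj) h1)
  rw [h2] at hj
  exact h.J_ne i hj

/-- The relation used for inductions: `i` is below `j` if `i ∈ J j`. -/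
theorem IsTable.wf [Finite ι] (h : IsTable F U Z top J) : WellFounded fun i j : ι => i ∈ J j := by
  have wf : WellFounded fun i j : ι => Z i ⊂ Z j := by
    have : IsTrans ι fun i j : ι => Z i ⊂ Z j := ⟨fun x y z hxy hyz => hxy.trans hyz⟩
    have : Std.Irrefl fun i j : ι => Z i ⊂ Z j := ⟨fun x hx => (ssubset_irrefl _ hx)⟩
    exact Finite.wellFounded_of_trans_of_irrefl _
  exact Subrelation.wf (fun hij => h.ssub hij) wf

theorem IsTable.wf' [Finite ι] (h : IsTable F U Z top J) : WellFounded fun i j : ι => j ∈ J i := by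
  have wf : WellFounded fun i j : ι => Z j ⊂ Z i := by
    have : IsTrans ι fun i j : ι => Z j ⊂ Z i := ⟨fun x y z hxy hyz => hyz.trans hxy⟩
    have : Std.Irrefl fun i j : ι => Z j ⊂ Z i := ⟨fun x hx => (ssubset_irrefl _ hx)⟩
    exact Finite.wellFounded_of_trans_of_irrefl _
  exact Subrelation.wf (fun hij => h.ssub hij) wf

theorem IsTable.sing_sub [Finite ι] (h : IsTable F U Z top J) (i : ι) :
    Z i ⊆ singPts F ∩ U := by
  induction i using h.wf'.induction with
  | _ i ih =>
    rcases h.reach i with h1 | ⟨j, hj⟩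
    · rw [h.sing]
      exact Set.subset_biUnion_of_mem h1
    · exact (h.sub hj).trans (ih j hj)

/-- The stratum with closure `Z`. -/
def stratum (F : MvPolynomial (Fin (r + 1)) k) (Z : Set (Fin (r + 1) → k)) :
    Set (Fin (r + 1) → k) := {Q ∈ Z | EquisingAt F Q (vanishingIdeal k Z)}

theorem IsTable.diff (h : IsTable F U Z top J) (i : ι) :
    Z i \ stratum F (Z i) = ⋃ j ∈ J i, Z j := by
  rw [← h.bad i]
  ext Q
  simp only [stratum, Set.mem_sdiff, Set.mem_ofPred_eq]
  tauto

theorem IsTable.zcl_eq (h : IsTable F U Z top J) (i : ι) : zcl (Z i) ∩ U = Z i := (h.irr i).1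

/-- The stratum is dense. -/
theorem IsTable.zcl_stratum [Finite ι] (h : IsTable F U Z top J) (i : ι) :
    zcl (stratum F (Z i)) ∩ U = Z i := by
  classical
  have h0 : stratum F (Z i) ⊆ Z i := fun x hx => hx.1
  refine subset_antisymm ?_ ?_
  · rw [← h.zcl_eq i]
    exact Set.inter_subset_inter_left _ (by
      rw [h.zcl_eq i]
      exact zcl_mono h0)
  · -- `Z i` is contained in the union of the closure of the stratum and of the bad sets
    let A : Option ι → Set (Fin (r + 1) → k) := fun o => o.elim (stratum F (Z i)) Z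
    have h1 : Z i ⊆ ⋃ o ∈ ({none} ∪ Option.some '' (J i) : Set (Option ι)), (zcl (A o) ∩ U) := by
      intro x hx
      have hxU : x ∈ U := irr_subset (h.irr i) hx
      by_cases hx1 : x ∈ stratum F (Z i)
      · exact Set.mem_iUnion₂.2 ⟨none, Or.inl rfl, subset_zcl _ hx1, hxU⟩
      · have h2 : x ∈ Z i \ stratum F (Z i) := ⟨hx, hx1⟩
        rw [h.diff i] at h2
        obtain ⟨j, hj, hxj⟩ := Set.mem_iUnion₂.1 h2
        exact Set.mem_iUnion₂.2 ⟨some j, Or.inr ⟨j, hj, rfl⟩, subset_zcl _ hxj, hxU⟩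
    obtain ⟨o, ho, h2⟩ := subset_of_subset_iUnion_in (h.irr i) _ A h1
    rcases ho with ho | ⟨j, hj, rfl⟩
    · rw [Set.mem_singleton_iff] at ho
      subst ho
      exact h2
    · exfalso
      have h3 : Z i ⊆ Z j := by
        rw [← h.zcl_eq j]
        exact h2
      exact (h.ssub hj).2 h3

theorem IsTable.vanishing [Finite ι] (h : IsTable F U Z top J) (i : ι) :
    vanishingIdeal k (stratum F (Z i)) = vanishingIdeal k (Z i) := by
  have h0 : stratum F (Z i) ⊆ U := fun x hx => irr_subset (h.irr i) hx.1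
  rw [← vanishingIdeal_zcl_inter h0, h.zcl_stratum i]

theorem IsTable.closed_diff [Finite ι] (h : IsTable F U Z top J) (i : ι) :
    zcl (⋃ j ∈ J i, Z j) ∩ U = ⋃ j ∈ J i, Z j :=
  zcl_iUnion_in _ _ fun j _ => h.zcl_eq j

/-- `Z_j`, `j ∈ J i`, are the components of `Z_i \ E_i`. -/
theorem IsTable.isComp [Finite ι] (h : IsTable F U Z top J) {i j : ι} (hj : j ∈ J i) :
    IsCompIn U (Z i \ stratum F (Z i)) (Z j) := by
  refine ⟨h.irr j, ?_, ?_⟩
  · rw [h.diff i]
    exact Set.subset_biUnion_of_mem hj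
  · intro Z' hZ' h1 h2
    rw [h.diff i] at h1
    have h3 : Z' ⊆ ⋃ l ∈ J i, (zcl (Z l) ∩ U) :=
      h1.trans (Set.iUnion₂_mono fun l _ => (h.zcl_eq l).ge)
    obtain ⟨l, hl, h4⟩ := subset_of_subset_iUnion_in hZ' _ _ h3
    rw [h.zcl_eq l] at h4
    have h5 := h.J_inc i j hj l hl (h2.trans h4)
    rw [← h5] at h4
    exact subset_antisymm h4 h2

/-- `Z_i`, `i ∈ top`, are the components of the singular locus. -/
theorem IsTable.isComp_top [Finite ι] (h : IsTable F U Z top J) {i : ι} (hi : i ∈ top) :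
    IsCompIn U (singPts F ∩ U) (Z i) := by
  refine ⟨h.irr i, ?_, ?_⟩
  · rw [h.sing]
    exact Set.subset_biUnion_of_mem hi
  · intro Z' hZ' h1 h2
    rw [h.sing] at h1
    have h3 : Z' ⊆ ⋃ l ∈ top, (zcl (Z l) ∩ U) :=
      h1.trans (Set.iUnion₂_mono fun l _ => (h.zcl_eq l).ge)
    obtain ⟨l, hl, h4⟩ := subset_of_subset_iUnion_in hZ' _ _ h3
    rw [h.zcl_eq l] at h4
    have h5 := h.top_inc i hi l hl (h2.trans h4)
    rw [← h5] at h4
    exact subset_antisymm h4 h2

theorem simple_sing_disjoint (F : MvPolynomial (Fin (r + 1)) k) :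
    Disjoint (simplePts F) (singPts F) := by
  rw [Set.disjoint_left]
  rintro Q ⟨-, i, hi⟩ ⟨-, h2⟩
  exact hi (h2 i)

theorem simple_union_sing (F : MvPolynomial (Fin (r + 1)) k) :
    simplePts F ∪ singPts F = {Q | eval Q F = 0} := by
  ext Q
  simp only [simplePts, singPts, Set.mem_union, Set.mem_ofPred_eq]
  constructor
  · rintro (h | h) <;> exact h.1
  · intro h
    by_cases h1 : ∃ i, eval Q (pderiv i F) ≠ 0
    · exact Or.inl ⟨h, h1⟩
    · push Not at h1
      exact Or.inr ⟨h, h1⟩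

theorem IsTable.diff_zero (h : IsTable F U Z top J) :
    (zcl (simplePts F ∩ U) ∩ U) \ (simplePts F ∩ U) = singPts F ∩ U := by
  rw [h.dense]
  ext Q
  have h1 : Q ∈ simplePts F → Q ∉ singPts F := fun hQ =>
    Set.disjoint_left.1 (simple_sing_disjoint F) hQ
  have h2 : Q ∈ simplePts F ∪ singPts F ↔ eval Q F = 0 := by
    rw [simple_union_sing]
    rfl
  simp only [Set.mem_sdiff, Set.mem_ofPred_eq, Set.mem_inter_iff, Set.mem_union] at *
  tauto

/-- `Z_i` is the union of the strata below it. -/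
theorem IsTable.union_strata [Finite ι] (h : IsTable F U Z top J) (i : ι) :
    ∃ S : Set ι, Z i = ⋃ j ∈ S, stratum F (Z j) := by
  induction i using h.wf.induction with
  | _ i ih =>
    choose! S hS using ih
    refine ⟨{i} ∪ ⋃ j ∈ J i, S j, ?_⟩
    ext Q
    constructor
    · intro hQ
      by_cases h1 : Q ∈ stratum F (Z i)
      · exact Set.mem_iUnion₂.2 ⟨i, Or.inl rfl, h1⟩
      · have h2 : Q ∈ Z i \ stratum F (Z i) := ⟨hQ, h1⟩
        rw [h.diff i] at h2
        obtain ⟨j, hj, hQj⟩ := Set.mem_iUnion₂.1 h2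
        rw [hS j hj] at hQj
        obtain ⟨l, hl, hQl⟩ := Set.mem_iUnion₂.1 hQj
        exact Set.mem_iUnion₂.2 ⟨l, Or.inr (Set.mem_iUnion₂.2 ⟨j, hj, hl⟩), hQl⟩
    · intro hQ
      obtain ⟨l, hl, hQl⟩ := Set.mem_iUnion₂.1 hQ
      rcases hl with hl | hl
      · rw [Set.mem_singleton_iff] at hl
        subst hl
        exact hQl.1
      · obtain ⟨j, hj, hlj⟩ := Set.mem_iUnion₂.1 hl
        apply h.sub hj
        rw [hS j hj]
        exact Set.mem_iUnion₂.2 ⟨l, hlj, hQl⟩

/-- The family of the strata of a table. -/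
def strata (F : MvPolynomial (Fin (r + 1)) k) (U : Set (Fin (r + 1) → k)) {N : ℕ}
    (Z : Fin N → Set (Fin (r + 1) → k)) : Fin (N + 1) → Set (Fin (r + 1) → k) :=
  Fin.cases (simplePts F ∩ U) fun i => stratum F (Z i)

end Table

/-- Existence of Zariski's stratification, from a table. -/
theorem exists_strat {F : MvPolynomial (Fin (r + 1)) k} {U : Set (Fin (r + 1) → k)} {N : ℕ}
    {Z : Fin N → Set (Fin (r + 1) → k)} {top : Set (Fin N)} {J : Fin N → Set (Fin N)}
    (h : IsTable F U Z top J) : IsZStrat F U N (strata F U Z) := by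
  have hs0 : strata F U Z 0 = simplePts F ∩ U := rfl
  have hs1 : ∀ i : Fin N, strata F U Z i.succ = stratum F (Z i) := fun i => rfl
  have hun : ∀ S : Set (Fin N), ∃ J' : Set (Fin (N + 1)),
      (⋃ j ∈ S, Z j) = ⋃ j ∈ J', strata F U Z j := by
    intro S
    choose T hT using h.union_strata
    refine ⟨Fin.succ '' ⋃ j ∈ S, T j, ?_⟩
    ext Q
    constructor
    · intro hQ
      obtain ⟨j, hj, hQj⟩ := Set.mem_iUnion₂.1 hQ
      rw [hT j] at hQj
      obtain ⟨l, hl, hQl⟩ := Set.mem_iUnion₂.1 hQj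
      exact Set.mem_iUnion₂.2 ⟨l.succ, ⟨l, Set.mem_iUnion₂.2 ⟨j, hj, hl⟩, rfl⟩, hQl⟩
    · intro hQ
      obtain ⟨l', ⟨l, hl, rfl⟩, hQl⟩ := Set.mem_iUnion₂.1 hQ
      obtain ⟨j, hj, hlj⟩ := Set.mem_iUnion₂.1 hl
      refine Set.mem_iUnion₂.2 ⟨j, hj, ?_⟩
      rw [hT j]
      exact Set.mem_iUnion₂.2 ⟨l, hlj, hQl⟩
  refine ⟨hs0, ?_, ?_, ?_, ?_, ?_, ?_⟩
  · -- injectivity
    intro a b hab
    have hne : ∀ i : Fin N, strata F U Z 0 ≠ strata F U Z i.succ := by
      intro i hi
      obtain ⟨x, hx⟩ : (stratum F (Z i)).Nonempty := by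
        rw [Set.nonempty_iff_ne_empty]
        intro h0
        have h1 := h.vanishing i
        rw [h0, vanishingIdeal_empty] at h1
        exact (h.irr i).2.ne_top h1.symm
      have h1 : x ∈ simplePts F ∩ U := by
        rw [← hs0, hi]
        exact hx
      exact Set.disjoint_left.1 (simple_sing_disjoint F) h1.1 (h.sing_sub i hx.1).1
    induction a using Fin.cases with
    | zero =>
      induction b using Fin.cases with
      | zero => rfl
      | succ b => exact absurd hab (hne b)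
    | succ a =>
      induction b using Fin.cases with
      | zero => exact absurd hab.symm (hne a)
      | succ b =>
        rw [hs1, hs1] at hab
        have h1 := h.zcl_stratum a
        rw [hab, h.zcl_stratum b] at h1
        rw [h.inj h1]
  · -- the strata cover `V`
    ext Q
    constructor
    · intro hQ
      obtain ⟨a, ha⟩ := Set.mem_iUnion.1 hQ
      induction a using Fin.cases with
      | zero =>
        rw [hs0] at ha
        exact ⟨ha.2, ha.1.1⟩
      | succ a =>
        have h1 := h.sing_sub a ha.1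
        exact ⟨h1.2, h1.1.1⟩
    · rintro ⟨hQU, hQ⟩
      have h1 : Q ∈ simplePts F ∪ singPts F := by
        rw [simple_union_sing]
        exact hQ
      rcases h1 with h1 | h1
      · exact Set.mem_iUnion.2 ⟨0, h1, hQU⟩
      · have h2 : Q ∈ ⋃ i ∈ top, Z i := by
          rw [← h.sing]
          exact ⟨h1, hQU⟩
        obtain ⟨i, -, hi⟩ := Set.mem_iUnion₂.1 h2
        obtain ⟨S, hS⟩ := h.union_strata i
        rw [hS] at hi
        obtain ⟨l, -, hl⟩ := Set.mem_iUnion₂.1 hi
        exact Set.mem_iUnion.2 ⟨l.succ, hl⟩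
  · -- irreducibility
    intro a ha
    obtain ⟨i, rfl⟩ := Fin.exists_succ_eq.2 ha
    rw [hs1, h.zcl_stratum]
    exact h.irr i
  · -- characterization
    intro a ha
    obtain ⟨i, rfl⟩ := Fin.exists_succ_eq.2 ha
    rw [hs1, h.zcl_stratum, h.vanishing]
    rfl
  · -- unions
    intro a
    induction a using Fin.cases with
    | zero =>
      rw [hs0, h.diff_zero, h.sing]
      exact hun top
    | succ i =>
      rw [hs1, h.zcl_stratum, h.diff]
      exact hun (J i)
  · -- components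
    intro a ha
    obtain ⟨i, rfl⟩ := Fin.exists_succ_eq.2 ha
    rcases h.reach i with hi | ⟨j, hj⟩
    · refine ⟨0, ?_⟩
      rw [hs0, h.diff_zero, hs1, h.zcl_stratum]
      exact h.isComp_top hi
    · refine ⟨j.succ, ?_⟩
      rw [hs1, hs1, h.zcl_stratum, h.zcl_stratum]
      exact h.isComp hj

/-- Uniqueness: every `Z_i` of a table is the closure of a stratum of every Zariski
stratification. -/
theorem exists_index {F : MvPolynomial (Fin (r + 1)) k} {U : Set (Fin (r + 1) → k)} {ι : Type}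
    [Finite ι] {Z : ι → Set (Fin (r + 1) → k)} {top : Set ι} {J : ι → Set ι}
    (h : IsTable F U Z top J) {N : ℕ} {E : Fin (N + 1) → Set (Fin (r + 1) → k)}
    (hE : IsZStrat F U N E) (i : ι) : ∃ a, a ≠ 0 ∧ zcl (E a) ∩ U = Z i ∧ E a = stratum F (Z i) := by
  have hEU : ∀ a, E a ⊆ U := by
    intro a x hx
    have : x ∈ ⋃ i, E i := Set.mem_iUnion.2 ⟨a, hx⟩
    rw [hE.cover] at this
    exact this.1
  have hchar : ∀ a, a ≠ 0 → zcl (E a) ∩ U = Z i → E a = stratum F (Z i) := by
    intro a ha h1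
    rw [hE.char a ha]
    have h2 : vanishingIdeal k (E a) = vanishingIdeal k (Z i) := by
      rw [← h1, vanishingIdeal_zcl_inter (hEU a)]
    rw [h1, h2]
    rfl
  suffices h0 : ∃ a, a ≠ 0 ∧ zcl (E a) ∩ U = Z i by
    obtain ⟨a, ha, h1⟩ := h0
    exact ⟨a, ha, h1, hchar a ha h1⟩
  clear hchar
  -- a component of a closed union of strata inside the singular locus is a closure
  have main : ∀ (B : Set (Fin (r + 1) → k)), zcl B ∩ U = B → B ⊆ singPts F →
      (∃ J' : Set (Fin (N + 1)), B = ⋃ j ∈ J', E j) → ∀ Z', IsCompIn U B Z' →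
      ∃ a, a ≠ 0 ∧ zcl (E a) ∩ U = Z' := by
    rintro B hB hBS ⟨J', hJ'⟩ Z' ⟨hZ1, hZ2, hZ3⟩
    have h1 : Z' ⊆ ⋃ j ∈ J', (zcl (E j) ∩ U) := by
      intro x hx
      have hx2 := hZ2 hx
      rw [hJ'] at hx2
      obtain ⟨j, hj, hxj⟩ := Set.mem_iUnion₂.1 hx2
      exact Set.mem_iUnion₂.2 ⟨j, hj, subset_zcl _ hxj, hEU j hxj⟩
    obtain ⟨j, hj, h2⟩ := subset_of_subset_iUnion_in hZ1 _ _ h1
    have h3 : E j ⊆ B := by
      rw [hJ']
      exact Set.subset_biUnion_of_mem hj
    have hj0 : j ≠ 0 := by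
      rintro rfl
      have h4 : E 0 = ∅ := by
        rw [Set.eq_empty_iff_forall_notMem]
        intro x hx
        have h5 := hBS (h3 hx)
        rw [hE.zero] at hx
        exact Set.disjoint_left.1 (simple_sing_disjoint F) hx.1 h5
      rw [h4] at h2
      obtain ⟨x, hx⟩ := irr_nonempty hZ1
      have h5 := (h2 hx).1
      unfold zcl at h5
      rw [vanishingIdeal_empty] at h5
      have h6 := h5 1 trivial
      simp at h6
    refine ⟨j, hj0, hZ3 _ (hE.irr j hj0) ?_ h2⟩
    have h4 := Set.inter_subset_inter_left U (zcl_mono h3)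
    rwa [hB] at h4
  induction i using h.wf'.induction with
  | _ i ih =>
    rcases h.reach i with hi | ⟨j, hj⟩
    · refine main (singPts F ∩ U) ?_ Set.inter_subset_left ?_ _ (h.isComp_top hi)
      · rw [h.sing]
        exact zcl_iUnion_in _ _ fun j _ => h.zcl_eq j
      · obtain ⟨J', hJ'⟩ := hE.union 0
        rw [hE.zero, h.diff_zero] at hJ'
        exact ⟨J', hJ'⟩
    · obtain ⟨b, hb, hb1⟩ := ih j hj
      have hb2 : E b = stratum F (Z j) := by
        rw [hE.char b hb]
        have h2 : vanishingIdeal k (E b) = vanishingIdeal k (Z j) := by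
          rw [← hb1, vanishingIdeal_zcl_inter (hEU b)]
        rw [hb1, h2]
        rfl
      refine main (Z j \ stratum F (Z j)) ?_ ?_ ?_ _ (h.isComp hj)
      · rw [h.diff]
        exact h.closed_diff j
      · exact fun x hx => (h.sing_sub j hx.1).1
      · obtain ⟨J', hJ'⟩ := hE.union b
        rw [hb1, hb2] at hJ'
        exact ⟨J', hJ'⟩

/-- If a point lies in two strata of the table, then every Zariski stratification has two strata
with a common point. -/
theorem not_disjoint {F : MvPolynomial (Fin (r + 1)) k} {U : Set (Fin (r + 1) → k)} {ι : Type}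
    [Finite ι] {Z : ι → Set (Fin (r + 1) → k)} {top : Set ι} {J : ι → Set ι}
    (h : IsTable F U Z top J) {i j : ι} (hij : i ≠ j) {Q : Fin (r + 1) → k}
    (hi : Q ∈ stratum F (Z i)) (hj : Q ∈ stratum F (Z j))
    {N : ℕ} {E : Fin (N + 1) → Set (Fin (r + 1) → k)} (hE : IsZStrat F U N E) :
    ∃ a b, a ≠ b ∧ Q ∈ E a ∧ Q ∈ E b := by
  obtain ⟨a, ha, ha1, ha2⟩ := exists_index h hE i
  obtain ⟨b, hb, hb1, hb2⟩ := exists_index h hE j
  refine ⟨a, b, ?_, ?_, ?_⟩
  · rintro rfl
    exact hij (h.inj (ha1.symm.trans hb1))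
  · rw [ha2]
    exact hi
  · rw [hb2]
    exact hj

end H51.Zar
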