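import Pool.Agent.H51.Zar.CombFull

set_option linter.style.longLine false

/-! Parametrized closed sets are irreducible; reindexing of tables. -/

namespace H51.Zar

open MvPolynomial H9.Zar

universe v

variable {k : Type v} [Field k] {r : ℕ}

/-- A set defined by equations is closed in `U`. -/
theorem closed_of_eqs {U : Set (Fin (r + 1) → k)} (G : Set (MvPolynomial (Fin (r + 1)) k))
    {Z : Set (Fin (r + 1) → k)} (hZ : ∀ Q, Q ∈ Z ↔ Q ∈ U ∧ ∀ f ∈ G, eval Q f = 0) :
    zcl Z ∩ U = Z := by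
  refine subset_antisymm ?_ fun x hx => ⟨subset_zcl _ hx, ((hZ x).1 hx).1⟩
  rintro x ⟨hx, hxU⟩
  rw [hZ]
  refine ⟨hxU, fun f hf => ?_⟩
  have h1 : f ∈ vanishingIdeal k Z := by
    intro y hy
    have := ((hZ y).1 hy).2 f hf
    simpa using this
  have := hx f h1
  simpa using this

/-- The vanishing ideal of the image of a polynomial map, restricted to `h ≠ 0`. -/
theorem vanishingIdeal_param [Infinite k] {σ : Type} (h : MvPolynomial (Fin (r + 1)) k)
    (φ : MvPolynomial (Fin (r + 1)) k →ₐ[k] MvPolynomial σ k) (hh : φ h ≠ 0)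
    {Z : Set (Fin (r + 1) → k)}
    (hZ : ∀ Q, Q ∈ Z ↔ eval Q h ≠ 0 ∧ ∃ P : σ → k, Q = fun i => eval P (φ (X i))) (f : MvPolynomial (Fin (r + 1)) k) :
    f ∈ vanishingIdeal k Z ↔ φ f = 0 := by
  have key : ∀ (P : σ → k) (g : MvPolynomial (Fin (r + 1)) k),
      eval (fun i => eval P (φ (X i))) g = eval P (φ g) := by
    intro P g
    have h1 : (aeval (fun i => eval P (φ (X i))) : MvPolynomial (Fin (r + 1)) k →ₐ[k] k) =
        (aeval P : MvPolynomial σ k →ₐ[k] k).comp φ := by
      apply MvPolynomial.algHom_ext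
      intro i
      simp
    have h2 := DFunLike.congr_fun h1 g
    simpa using h2
  constructor
  · intro hf
    have h1 : φ (f * h) = 0 := by
      apply MvPolynomial.funext
      intro P
      rw [map_zero, map_mul, map_mul]
      by_cases hP : eval P (φ h) = 0
      · rw [hP, mul_zero]
      · have h2 := hf (fun i => eval P (φ (X i))) ((hZ _).2 ⟨by rw [key]; exact hP, P, rfl⟩)
        have h3 : eval P (φ f) = 0 := by
          rw [← key]
          simpa using h2
        rw [h3, zero_mul]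
    rw [map_mul, mul_eq_zero] at h1
    exact h1.resolve_right hh
  · intro hf Q hQ
    obtain ⟨-, P, rfl⟩ := (hZ Q).1 hQ
    have h1 := key P f
    rw [hf, map_zero] at h1
    simpa using h1

/-- Parametrized closed sets are irreducible. -/
theorem irr_of_param [Infinite k] {σ : Type} (h : MvPolynomial (Fin (r + 1)) k)
    (φ : MvPolynomial (Fin (r + 1)) k →ₐ[k] MvPolynomial σ k) (hh : φ h ≠ 0)
    {Z : Set (Fin (r + 1) → k)}
    (hZ : ∀ Q, Q ∈ Z ↔ eval Q h ≠ 0 ∧ ∃ P : σ → k, Q = fun i => eval P (φ (X i)))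
    (hcl : zcl Z ∩ openSet h = Z) : IrrClosedIn (openSet h) Z := by
  refine ⟨hcl, ?_⟩
  have h1 : vanishingIdeal k Z = RingHom.ker φ := by
    ext f
    rw [vanishingIdeal_param h φ hh hZ f, RingHom.mem_ker]
  rw [h1]
  exact RingHom.ker_isPrime φ

/-- Reindexing of a table. -/
theorem IsTable.reindex {F : MvPolynomial (Fin (r + 1)) k} {U : Set (Fin (r + 1) → k)}
    {ι ι' : Type} {Z : ι → Set (Fin (r + 1) → k)} {top : Set ι} {J : ι → Set ι}
    (h : IsTable F U Z top J) (e : ι' ≃ ι) :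
    IsTable F U (fun i => Z (e i)) (e ⁻¹' top) (fun i => e ⁻¹' (J (e i))) := by
  have hun : ∀ S : Set ι, (⋃ j ∈ (e ⁻¹' S : Set ι'), Z (e j)) = ⋃ j ∈ S, Z j := by
    intro S
    ext Q
    constructor
    · intro hQ
      obtain ⟨j, hj, hQj⟩ := Set.mem_iUnion₂.1 hQ
      exact Set.mem_iUnion₂.2 ⟨e j, hj, hQj⟩
    · intro hQ
      obtain ⟨j, hj, hQj⟩ := Set.mem_iUnion₂.1 hQ
      refine Set.mem_iUnion₂.2 ⟨e.symm j, ?_, ?_⟩
      · simpa using hj
      · simpa using hQj
  refine ⟨fun i => h.irr _, h.inj.comp e.injective, h.dense, ?_, ?_, ?_, ?_, ?_, ?_⟩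
  · rw [hun]
    exact h.sing
  · intro i hi j hj hij
    exact e.injective (h.top_inc _ hi _ hj hij)
  · intro i
    rw [hun]
    exact h.bad _
  · intro i j hj l hl hjl
    exact e.injective (h.J_inc _ _ hj _ hl hjl)
  · intro i hi
    exact h.J_ne _ hi
  · intro i
    rcases h.reach (e i) with h1 | ⟨j, hj⟩
    · exact Or.inl h1
    · refine Or.inr ⟨e.symm j, ?_⟩
      simpa using hj

/-- Existence of Zariski's stratification, from a table with any finite index type. -/
theorem exists_strat' {F : MvPolynomial (Fin (r + 1)) k} {U : Set (Fin (r + 1) → k)}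
    {ι : Type} [Finite ι] {Z : ι → Set (Fin (r + 1) → k)} {top : Set ι} {J : ι → Set ι}
    (h : IsTable F U Z top J) : ∃ (N : ℕ) (E : Fin (N + 1) → Set (Fin (r + 1) → k)),
      IsZStrat F U N E := by
  obtain ⟨N, ⟨e⟩⟩ := Finite.exists_equiv_fin ι
  exact ⟨N, _, exists_strat (h.reindex e.symm)⟩

end H51.Zar
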