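import Pool.Agent.H51.Zar.Param

set_option linter.style.longLine false

/-! The table of the strata of an arrangement of sheets `z = a_i t + e (b_i r + c_i e)` in affine
`7`-space with coordinates `z, t, r, e, s_1, s_2, s_3`; `b_i`, `c_i` depend on `s_1, s_2, s_3`. -/

namespace H51.Zar

open MvPolynomial H9.Zar

universe v

variable {k : Type v} [Field k] {n : ℕ}

/-- The polynomials in `s_1, s_2, s_3`. -/
noncomputable def sAlg (k : Type v) [Field k] : Subalgebra k (MvPolynomial (Fin 7) k) :=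
  Algebra.adjoin k {X 4, X 5, X 6}

theorem sAlg_eval {f : MvPolynomial (Fin 7) k} (hf : f ∈ sAlg k) {Q Q' : Fin 7 → k}
    (h4 : Q 4 = Q' 4) (h5 : Q 5 = Q' 5) (h6 : Q 6 = Q' 6) : eval Q f = eval Q' f := by
  have h1 : sAlg k ≤ AlgHom.equalizer (aeval Q : MvPolynomial (Fin 7) k →ₐ[k] k)
      (aeval Q' : MvPolynomial (Fin 7) k →ₐ[k] k) := by
    refine Algebra.adjoin_le ?_
    rintro x (rfl | rfl | rfl)
    · simp [h4]
    · simp [h5]
    · simp [h6]
  have h2 := h1 hf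
  rw [AlgHom.mem_equalizer] at h2
  simpa using h2

section Defs

variable (a : Fin n → k) (b c : Fin n → MvPolynomial (Fin 7) k)

/-- The sheet `z = a_i t + e (b_i r + c_i e)`. -/
noncomputable def sheet (i : Fin n) : MvPolynomial (Fin 7) k :=
  X 0 - C (a i) * X 1 - X 3 * (b i * X 2 + c i * X 3)

/-- The determinant of `1, a, b` for the sheets `i, j, l` (the same with `c` in place of `b`). -/
noncomputable def dt (i j l : Fin n) : MvPolynomial (Fin 7) k :=
  C (a j - a l) * b i + C (a l - a i) * b j + C (a i - a j) * b l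

/-- The intersection of the sheets of `S`, without the points with `e = 0`, up to closure. -/
def zS (U : Set (Fin 7 → k)) (S : Finset (Fin n)) : Set (Fin 7 → k) :=
  {Q | Q ∈ U ∧ (∀ i ∈ S, eval Q (sheet a b c i) = 0) ∧ ∀ i ∈ S, ∀ j ∈ S, ∀ l ∈ S,
    eval Q (dt a b i j l) * Q 2 + eval Q (dt a c i j l) * Q 3 = 0}

/-- `z = t = e = 0` -/
def zBp (U : Set (Fin 7 → k)) : Set (Fin 7 → k) := {Q | Q ∈ U ∧ Q 0 = 0 ∧ Q 1 = 0 ∧ Q 3 = 0}

/-- `z = t = r = e = 0` -/
def zB (U : Set (Fin 7 → k)) : Set (Fin 7 → k) :=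
  {Q | Q ∈ U ∧ Q 0 = 0 ∧ Q 1 = 0 ∧ Q 2 = 0 ∧ Q 3 = 0}

/-- `z = t = r = e = s_1 = s_2 = 0` -/
def zMa (U : Set (Fin 7 → k)) : Set (Fin 7 → k) := {Q | Q ∈ zB U ∧ Q 4 = 0 ∧ Q 5 = 0}

/-- `z = t = r = e = s_1 = s_3 = 0` -/
def zMb (U : Set (Fin 7 → k)) : Set (Fin 7 → k) := {Q | Q ∈ zB U ∧ Q 4 = 0 ∧ Q 6 = 0}

/-- The conditions on the arrangement and on the open set `h ≠ 0`. -/
structure Good (h : MvPolynomial (Fin 7) k) : Prop where
  three : 3 ≤ n
  a_inj : Function.Injective a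
  b_s : ∀ i, b i ∈ sAlg k
  c_s : ∀ i, c i ∈ sAlg k
  s0 : ∀ Q : Fin 7 → k, Q 4 = 0 → Q 5 = 0 → Q 6 = 0 → Q ∈ openSet h
  ne : ∀ Q ∈ openSet h, ∀ i j l, i ≠ j → j ≠ l → i ≠ l → eval Q (dt a b i j l) ≠ 0
  minor : ∀ i j l m, i ≠ j → j ≠ l → i ≠ l → m ≠ i → m ≠ j → m ≠ l →
    eval 0 (dt a b i j l) * eval 0 (dt a c i j m) ≠ eval 0 (dt a b i j m) * eval 0 (dt a c i j l)

/-- The index set of the table: the sets of two or three sheets, and `B⁺`, `B`, `M_a`, `M_b`. -/
abbrev Idx (n : ℕ) : Type := {S : Finset (Fin n) // S.card = 2 ∨ S.card = 3} ⊕ Fin 4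

/-- The sets of the table. -/
def zZ (U : Set (Fin 7 → k)) : Idx n → Set (Fin 7 → k)
  | Sum.inl S => zS a b c U S.1
  | Sum.inr 0 => zBp U
  | Sum.inr 1 => zB U
  | Sum.inr 2 => zMa U
  | Sum.inr 3 => zMb U

/-- The components of the singular locus. -/
def tTop (n : ℕ) : Set (Idx n) := {o | ∃ S, o = Sum.inl S ∧ S.1.card = 2}

/-- The components of the loci of non-equisingularity. -/
def tJ (n : ℕ) : Idx n → Set (Idx n)
  | Sum.inl S => {o | (S.1.card = 2 ∧ (o = Sum.inr 0 ∨ ∃ T, o = Sum.inl T ∧ S.1 ⊆ T.1 ∧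
      T.1.card = 3)) ∨ (S.1.card = 3 ∧ o = Sum.inr 1)}
  | Sum.inr 0 => {Sum.inr 1}
  | Sum.inr 1 => {Sum.inr 2, Sum.inr 3}
  | Sum.inr 2 => ∅
  | Sum.inr 3 => ∅

end Defs

section Basic

variable {a : Fin n → k} {b c : Fin n → MvPolynomial (Fin 7) k} {h : MvPolynomial (Fin 7) k}

theorem eval_sheet (Q : Fin 7 → k) (i : Fin n) : eval Q (sheet a b c i) =
    Q 0 - a i * Q 1 - Q 3 * (eval Q (b i) * Q 2 + eval Q (c i) * Q 3) := by
  simp [sheet]

theorem eval_dt (Q : Fin 7 → k) (i j l : Fin n) : eval Q (dt a b i j l) =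
    (a j - a l) * eval Q (b i) + (a l - a i) * eval Q (b j) + (a i - a j) * eval Q (b l) := by
  simp [dt]

/-- The linear relation between three sheets. -/
theorem sheet_rel (Q : Fin 7 → k) (i j l : Fin n) :
    (a j - a l) * eval Q (sheet a b c i) + (a l - a i) * eval Q (sheet a b c j) +
      (a i - a j) * eval Q (sheet a b c l) =
    - (Q 3 * (eval Q (dt a b i j l) * Q 2 + eval Q (dt a c i j l) * Q 3)) := by
  simp only [eval_sheet, eval_dt]
  ring

theorem Good.dt_ne (hg : Good a b c h) {Q : Fin 7 → k} (hQ : Q ∈ openSet h) {i j l : Fin n}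
    (hij : i ≠ j) (hjl : j ≠ l) (hil : i ≠ l) : eval Q (dt a b i j l) ≠ 0 :=
  hg.ne Q hQ i j l hij hjl hil

theorem Good.zero_mem (hg : Good a b c h) : (0 : Fin 7 → k) ∈ openSet h := hg.s0 0 rfl rfl rfl

/-- The points with `s = 0` are in `U`. -/
theorem Good.mem_of_s (hg : Good a b c h) {Q : Fin 7 → k} (h4 : Q 4 = 0) (h5 : Q 5 = 0)
    (h6 : Q 6 = 0) : Q ∈ openSet h := hg.s0 Q h4 h5 h6

theorem phi_ne (hg : Good a b c h) {σ : Type} (φ : MvPolynomial (Fin 7) k →ₐ[k] MvPolynomial σ k)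
    (hφ : ∀ i, eval 0 (φ (X i)) = 0) : φ h ≠ 0 := by
  intro h1
  apply hg.zero_mem
  have h2 : (aeval (0 : σ → k) : MvPolynomial σ k →ₐ[k] k).comp φ =
      (aeval (0 : Fin 7 → k) : MvPolynomial (Fin 7) k →ₐ[k] k) := by
    apply MvPolynomial.algHom_ext
    intro i
    have := hφ i
    simpa using this
  have h3 := DFunLike.congr_fun h2 h
  simp only [AlgHom.comp_apply, h1, map_zero] at h3
  have h4 : aeval (0 : Fin 7 → k) h = eval 0 h := by simp
  rw [← h4, ← h3]

/-! ### Membership -/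

theorem mem_zS_pair {U : Set (Fin 7 → k)} {i j : Fin n} {Q : Fin 7 → k} :
    Q ∈ zS a b c U {i, j} ↔ Q ∈ U ∧ eval Q (sheet a b c i) = 0 ∧ eval Q (sheet a b c j) = 0 := by
  constructor
  · rintro ⟨h1, h2, -⟩
    exact ⟨h1, h2 i (by simp), h2 j (by simp)⟩
  · rintro ⟨h1, h2, h3⟩
    refine ⟨h1, ?_, ?_⟩
    · intro x hx
      simp only [Finset.mem_insert, Finset.mem_singleton] at hx
      rcases hx with rfl | rfl
      · exact h2
      · exact h3
    · simp only [Finset.mem_insert, Finset.mem_singleton]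
      rintro x (rfl | rfl) y (rfl | rfl) z (rfl | rfl) <;> simp only [eval_dt] <;> ring

theorem mem_zS_triple (ha : Function.Injective a) {U : Set (Fin 7 → k)} {i j l : Fin n}
    (hij : i ≠ j) {Q : Fin 7 → k} :
    Q ∈ zS a b c U {i, j, l} ↔ Q ∈ U ∧ eval Q (sheet a b c i) = 0 ∧ eval Q (sheet a b c j) = 0 ∧
      eval Q (dt a b i j l) * Q 2 + eval Q (dt a c i j l) * Q 3 = 0 := by
  constructor
  · rintro ⟨h1, h2, h3⟩
    exact ⟨h1, h2 i (by simp), h2 j (by simp), h3 i (by simp) j (by simp) l (by simp)⟩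
  · rintro ⟨h1, h2, h3, h4⟩
    refine ⟨h1, ?_, ?_⟩
    · intro x hx
      simp only [Finset.mem_insert, Finset.mem_singleton] at hx
      rcases hx with rfl | rfl | rfl
      · exact h2
      · exact h3
      · have h5 := sheet_rel (a := a) (b := b) (c := c) Q i j x
        rw [h2, h3, h4] at h5
        have h6 : a i - a j ≠ 0 := sub_ne_zero.2 fun h7 => hij (ha h7)
        have h7 : (a i - a j) * eval Q (sheet a b c x) = 0 := by linear_combination h5
        exact (mul_eq_zero.1 h7).resolve_left h6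
    · simp only [Finset.mem_insert, Finset.mem_singleton]
      simp only [eval_dt] at h4 ⊢
      rintro x (rfl | rfl | rfl) y (rfl | rfl | rfl) z (rfl | rfl | rfl) <;>
        first
          | ring1
          | linear_combination h4
          | linear_combination -h4

theorem closed_zS (S : Finset (Fin n)) :
    zcl (zS a b c (openSet h) S) ∩ openSet h = zS a b c (openSet h) S := by
  refine closed_of_eqs ({f | ∃ i ∈ S, f = sheet a b c i} ∪ {f | ∃ i ∈ S, ∃ j ∈ S, ∃ l ∈ S,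
    f = dt a b i j l * X 2 + dt a c i j l * X 3}) fun Q => ?_
  constructor
  · rintro ⟨h1, h2, h3⟩
    refine ⟨h1, ?_⟩
    rintro f (⟨i, hi, rfl⟩ | ⟨i, hi, j, hj, l, hl, rfl⟩)
    · exact h2 i hi
    · simpa using h3 i hi j hj l hl
  · rintro ⟨h1, h2⟩
    refine ⟨h1, fun i hi => h2 _ (Or.inl ⟨i, hi, rfl⟩), fun i hi j hj l hl => ?_⟩
    simpa using h2 _ (Or.inr ⟨i, hi, j, hj, l, hl, rfl⟩)

/-- The sets of coordinates that vanish on the small strata. -/
def zC (U : Set (Fin 7 → k)) (A : Finset (Fin 7)) : Set (Fin 7 → k) := {Q | Q ∈ U ∧ ∀ i ∈ A, Q i = 0}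

theorem zBp_eq (U : Set (Fin 7 → k)) : zBp U = zC U {0, 1, 3} := by
  ext Q
  simp [zBp, zC]

theorem zB_eq (U : Set (Fin 7 → k)) : zB U = zC U {0, 1, 2, 3} := by
  ext Q
  simp [zB, zC]

theorem zMa_eq (U : Set (Fin 7 → k)) : zMa U = zC U {0, 1, 2, 3, 4, 5} := by
  ext Q
  simp [zMa, zB, zC]
  tauto

theorem zMb_eq (U : Set (Fin 7 → k)) : zMb U = zC U {0, 1, 2, 3, 4, 6} := by
  ext Q
  simp [zMb, zB, zC]
  tauto

theorem closed_zC (A : Finset (Fin 7)) :
    zcl (zC (openSet h) A) ∩ openSet h = zC (openSet h) A := by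
  refine closed_of_eqs {f | ∃ i ∈ A, f = X i} fun Q => ?_
  constructor
  · rintro ⟨h1, h2⟩
    refine ⟨h1, ?_⟩
    rintro f ⟨i, hi, rfl⟩
    simpa using h2 i hi
  · rintro ⟨h1, h2⟩
    refine ⟨h1, fun i hi => ?_⟩
    simpa using h2 _ ⟨i, hi, rfl⟩

/-- The substitution of `0` for the variables of `A`. -/
noncomputable def phiC (k : Type v) [Field k] (A : Finset (Fin 7)) :
    MvPolynomial (Fin 7) k →ₐ[k] MvPolynomial (Fin 7) k :=
  aeval fun i => if i ∈ A then 0 else X i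

theorem phiC_X (A : Finset (Fin 7)) (i : Fin 7) :
    phiC k A (X i) = if i ∈ A then 0 else X i := by
  simp [phiC]

theorem phiC_ne (hg : Good a b c h) (A : Finset (Fin 7)) : phiC k A h ≠ 0 := by
  refine phi_ne hg _ fun i => ?_
  rw [phiC_X]
  split_ifs <;> simp

theorem mem_zC_iff (A : Finset (Fin 7)) (Q : Fin 7 → k) : Q ∈ zC (openSet h) A ↔
    eval Q h ≠ 0 ∧ ∃ P : Fin 7 → k, Q = fun i => eval P (phiC k A (X i)) := by
  constructor
  · rintro ⟨h1, h2⟩
    refine ⟨h1, Q, ?_⟩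
    funext i
    rw [phiC_X]
    split_ifs with hi
    · rw [map_zero]
      exact h2 i hi
    · simp
  · rintro ⟨h1, P, rfl⟩
    refine ⟨h1, fun i hi => ?_⟩
    show eval P (phiC k A (X i)) = 0
    rw [phiC_X, if_pos hi, map_zero]

theorem irr_zC [Infinite k] (hg : Good a b c h) (A : Finset (Fin 7)) :
    IrrClosedIn (openSet h) (zC (openSet h) A) :=
  irr_of_param h (phiC k A) (phiC_ne hg A) (mem_zC_iff A) (closed_zC A)

/-- A variable vanishes on a coordinate subspace only if it is one of its equations. -/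
theorem mem_of_zC_subset [Infinite k] (hg : Good a b c h) {A A' : Finset (Fin 7)}
    (h1 : zC (openSet h) A ⊆ zC (openSet h) A') : A' ⊆ A := by
  intro i hi
  have h2 : X i ∈ vanishingIdeal k (zC (openSet h) A) := by
    intro Q hQ
    have := (h1 hQ).2 i hi
    simpa using this
  rw [vanishingIdeal_param h (phiC k A) (phiC_ne hg A) (mem_zC_iff A), phiC_X] at h2
  by_contra h3
  rw [if_neg h3] at h2
  exact X_ne_zero i h2

/-! ### Parametrizations -/

/-- Two sheets, solved for `t` and `z`. -/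
theorem solve (ha : Function.Injective a) {i j : Fin n} (hij : i ≠ j) (Q : Fin 7 → k) :
    (eval Q (sheet a b c i) = 0 ∧ eval Q (sheet a b c j) = 0) ↔
    (Q 1 = - ((a i - a j)⁻¹ * (Q 3 * ((eval Q (b i) - eval Q (b j)) * Q 2 +
      (eval Q (c i) - eval Q (c j)) * Q 3))) ∧
      Q 0 = a i * Q 1 + Q 3 * (eval Q (b i) * Q 2 + eval Q (c i) * Q 3)) := by
  have h6 : a i - a j ≠ 0 := sub_ne_zero.2 fun h7 => hij (ha h7)
  simp only [eval_sheet]
  constructor
  · rintro ⟨h1, h2⟩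
    refine ⟨?_, by linear_combination h1⟩
    have h3 : (a i - a j) * Q 1 = - (Q 3 * ((eval Q (b i) - eval Q (b j)) * Q 2 +
      (eval Q (c i) - eval Q (c j)) * Q 3)) := by linear_combination h2 - h1
    field_simp
    linear_combination h3
  · rintro ⟨h1, h2⟩
    have h3 : (a i - a j) * Q 1 = - (Q 3 * ((eval Q (b i) - eval Q (b j)) * Q 2 +
      (eval Q (c i) - eval Q (c j)) * Q 3)) := by
      rw [h1]
      field_simp
    refine ⟨by linear_combination h2, by linear_combination h2 + h3⟩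

section Phi

variable (a b c)

/-- The coordinate `t` of the parametrization. -/
noncomputable def tG (R E : MvPolynomial (Fin 7) k) (i j : Fin n) : MvPolynomial (Fin 7) k :=
  - (C ((a i - a j)⁻¹) * (E * ((b i - b j) * R + (c i - c j) * E)))

/-- The parametrization of two sheets. -/
noncomputable def phiG (R E : MvPolynomial (Fin 7) k) (i j : Fin n) :
    MvPolynomial (Fin 7) k →ₐ[k] MvPolynomial (Fin 7) k :=
  aeval ![C (a i) * tG a b c R E i j + E * (b i * R + c i * E), tG a b c R E i j, R, E, X 4, X 5,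
    X 6]

/-- The point of parameter `P`. -/
noncomputable def ptG (R E : MvPolynomial (Fin 7) k) (i j : Fin n) (P : Fin 7 → k) : Fin 7 → k :=
  fun x => eval P (phiG a b c R E i j (X x))

theorem ptG_0 (R E : MvPolynomial (Fin 7) k) (i j : Fin n) (P : Fin 7 → k) :
    ptG a b c R E i j P 0 = a i * ptG a b c R E i j P 1 +
      eval P E * (eval P (b i) * eval P R + eval P (c i) * eval P E) := by
  simp [ptG, phiG]

theorem ptG_1 (R E : MvPolynomial (Fin 7) k) (i j : Fin n) (P : Fin 7 → k) :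
    ptG a b c R E i j P 1 = - ((a i - a j)⁻¹ * (eval P E * ((eval P (b i) - eval P (b j)) *
      eval P R + (eval P (c i) - eval P (c j)) * eval P E))) := by
  simp [ptG, phiG, tG]

theorem ptG_2 (R E : MvPolynomial (Fin 7) k) (i j : Fin n) (P : Fin 7 → k) :
    ptG a b c R E i j P 2 = eval P R := by
  simp [ptG, phiG]

theorem ptG_3 (R E : MvPolynomial (Fin 7) k) (i j : Fin n) (P : Fin 7 → k) :
    ptG a b c R E i j P 3 = eval P E := by
  simp [ptG, phiG]

theorem ptG_4 (R E : MvPolynomial (Fin 7) k) (i j : Fin n) (P : Fin 7 → k) :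
    ptG a b c R E i j P 4 = P 4 := by
  simp [ptG, phiG]

theorem ptG_5 (R E : MvPolynomial (Fin 7) k) (i j : Fin n) (P : Fin 7 → k) :
    ptG a b c R E i j P 5 = P 5 := by
  simp [ptG, phiG]

theorem ptG_6 (R E : MvPolynomial (Fin 7) k) (i j : Fin n) (P : Fin 7 → k) :
    ptG a b c R E i j P 6 = P 6 := by
  simp [ptG, phiG]

theorem eval_ptG {f : MvPolynomial (Fin 7) k} (hf : f ∈ sAlg k) (R E : MvPolynomial (Fin 7) k)
    (i j : Fin n) (P : Fin 7 → k) : eval (ptG a b c R E i j P) f = eval P f :=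
  sAlg_eval hf (ptG_4 ..) (ptG_5 ..) (ptG_6 ..)

end Phi

theorem ptG_sheet (hg : Good a b c h) (R E : MvPolynomial (Fin 7) k) {i j : Fin n} (hij : i ≠ j)
    (P : Fin 7 → k) : eval (ptG a b c R E i j P) (sheet a b c i) = 0 ∧
      eval (ptG a b c R E i j P) (sheet a b c j) = 0 := by
  rw [solve hg.a_inj hij, eval_ptG a b c (hg.b_s i), eval_ptG a b c (hg.b_s j),
    eval_ptG a b c (hg.c_s i), eval_ptG a b c (hg.c_s j), ptG_2, ptG_3]
  exact ⟨ptG_1 .., ptG_0 ..⟩

/-- A point of the two sheets comes from the parameters. -/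
theorem eq_ptG (hg : Good a b c h) {R E : MvPolynomial (Fin 7) k} {i j : Fin n} (hij : i ≠ j)
    {P Q : Fin 7 → k} (h1 : eval Q (sheet a b c i) = 0) (h2 : eval Q (sheet a b c j) = 0)
    (hR : eval P R = Q 2) (hE : eval P E = Q 3) (h4 : P 4 = Q 4) (h5 : P 5 = Q 5)
    (h6 : P 6 = Q 6) : Q = ptG a b c R E i j P := by
  have h7 := (solve hg.a_inj hij Q).1 ⟨h1, h2⟩
  have hs : ∀ f ∈ sAlg k, eval P f = eval Q f := fun f hf => sAlg_eval hf h4 h5 h6
  have e1 : Q 1 = ptG a b c R E i j P 1 := by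
    rw [ptG_1, h7.1, hR, hE, hs _ (hg.b_s i), hs _ (hg.b_s j), hs _ (hg.c_s i), hs _ (hg.c_s j)]
  have e0 : Q 0 = ptG a b c R E i j P 0 := by
    rw [ptG_0, h7.2, hR, hE, hs _ (hg.b_s i), hs _ (hg.c_s i), e1]
  funext x
  fin_cases x
  · exact e0
  · exact e1
  · exact (hR.symm).trans (ptG_2 a b c R E i j P).symm
  · exact (hE.symm).trans (ptG_3 a b c R E i j P).symm
  · exact (h4.symm).trans (ptG_4 a b c R E i j P).symm
  · exact (h5.symm).trans (ptG_5 a b c R E i j P).symm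
  · exact (h6.symm).trans (ptG_6 a b c R E i j P).symm

/-- The parametrization of two sheets. -/
theorem mem_pair_iff (hg : Good a b c h) {i j : Fin n} (hij : i ≠ j) (Q : Fin 7 → k) :
    Q ∈ zS a b c (openSet h) {i, j} ↔ eval Q h ≠ 0 ∧
      ∃ P : Fin 7 → k, Q = fun x => eval P (phiG a b c (X 2) (X 3) i j (X x)) := by
  rw [mem_zS_pair]
  constructor
  · rintro ⟨h1, h2, h3⟩
    exact ⟨h1, Q, eq_ptG hg hij h2 h3 (by simp) (by simp) rfl rfl rfl⟩
  · rintro ⟨h1, P, rfl⟩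
    exact ⟨h1, ptG_sheet hg (X 2) (X 3) hij P⟩

/-- The parametrization of three sheets. -/
theorem mem_triple_iff (hg : Good a b c h) {i j l : Fin n} (hij : i ≠ j) (hjl : j ≠ l)
    (hil : i ≠ l) (Q : Fin 7 → k) :
    Q ∈ zS a b c (openSet h) {i, j, l} ↔ eval Q h ≠ 0 ∧
      ∃ P : Fin 7 → k, Q = fun x => eval P (phiG a b c (- dt a c i j l * X 3)
        (dt a b i j l * X 3) i j (X x)) := by
  have hbs : dt a b i j l ∈ sAlg k := by
    unfold dt
    exact add_mem (add_mem (mul_mem (Subalgebra.algebraMap_mem _ _) (hg.b_s i))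
      (mul_mem (Subalgebra.algebraMap_mem _ _) (hg.b_s j)))
      (mul_mem (Subalgebra.algebraMap_mem _ _) (hg.b_s l))
  have hcs : dt a c i j l ∈ sAlg k := by
    unfold dt
    exact add_mem (add_mem (mul_mem (Subalgebra.algebraMap_mem _ _) (hg.c_s i))
      (mul_mem (Subalgebra.algebraMap_mem _ _) (hg.c_s j)))
      (mul_mem (Subalgebra.algebraMap_mem _ _) (hg.c_s l))
  rw [mem_zS_triple hg.a_inj hij]
  constructor
  · rintro ⟨h1, h2, h3, h4⟩
    have h5 : eval Q (dt a b i j l) ≠ 0 := hg.dt_ne h1 hij hjl hil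
    refine ⟨h1, Function.update Q 3 (Q 3 / eval Q (dt a b i j l)), eq_ptG hg hij h2 h3 ?_ ?_ ?_ ?_ ?_⟩
    · rw [map_mul, map_neg, sAlg_eval hcs (Q' := Q) (by simp) (by simp) (by simp), eval_X]
      simp only [Function.update_self]
      field_simp
      linear_combination -h4
    · rw [map_mul, sAlg_eval hbs (Q' := Q) (by simp) (by simp) (by simp), eval_X]
      simp only [Function.update_self]
      field_simp
    · simp
    · simp
    · simp
  · rintro ⟨h1, P, rfl⟩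
    refine ⟨h1, (ptG_sheet hg _ _ hij P).1, (ptG_sheet hg _ _ hij P).2, ?_⟩
    have e1 := eval_ptG a b c hbs (- dt a c i j l * X 3) (dt a b i j l * X 3) i j P
    have e2 := eval_ptG a b c hcs (- dt a c i j l * X 3) (dt a b i j l * X 3) i j P
    have e3 := ptG_2 a b c (- dt a c i j l * X 3) (dt a b i j l * X 3) i j P
    have e4 := ptG_3 a b c (- dt a c i j l * X 3) (dt a b i j l * X 3) i j P
    show eval (ptG a b c (- dt a c i j l * X 3) (dt a b i j l * X 3) i j P) (dt a b i j l) *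
      ptG a b c (- dt a c i j l * X 3) (dt a b i j l * X 3) i j P 2 +
      eval (ptG a b c (- dt a c i j l * X 3) (dt a b i j l * X 3) i j P) (dt a c i j l) *
      ptG a b c (- dt a c i j l * X 3) (dt a b i j l * X 3) i j P 3 = 0
    rw [e1, e2, e3, e4]
    simp only [map_mul, map_neg, eval_X]
    ring

/-! ### Irreducibility -/

theorem phiG_zero (R E : MvPolynomial (Fin 7) k) (hE : eval 0 E = 0) (hR : eval 0 R = 0)
    (i j : Fin n) (x : Fin 7) : eval 0 (phiG a b c R E i j (X x)) = 0 := by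
  have e1 : ptG a b c R E i j 0 1 = 0 := by rw [ptG_1, hE]; ring
  fin_cases x
  · exact (ptG_0 a b c R E i j 0).trans (by rw [e1, hE]; ring)
  · exact e1
  · exact (ptG_2 a b c R E i j 0).trans hR
  · exact (ptG_3 a b c R E i j 0).trans hE
  · exact (ptG_4 a b c R E i j 0)
  · exact (ptG_5 a b c R E i j 0)
  · exact (ptG_6 a b c R E i j 0)

theorem pair_ne (hg : Good a b c h) (i j : Fin n) : phiG a b c (X 2) (X 3) i j h ≠ 0 :=
  phi_ne hg _ (phiG_zero _ _ (by simp) (by simp) i j)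

theorem triple_ne (hg : Good a b c h) (i j l : Fin n) : phiG a b c (- dt a c i j l * X 3)
    (dt a b i j l * X 3) i j h ≠ 0 :=
  phi_ne hg _ (phiG_zero _ _ (by simp) (by simp) i j)

theorem irr_pair [Infinite k] (hg : Good a b c h) {i j : Fin n} (hij : i ≠ j) :
    IrrClosedIn (openSet h) (zS a b c (openSet h) {i, j}) :=
  irr_of_param h _ (pair_ne hg i j) (mem_pair_iff hg hij) (closed_zS _)

theorem irr_triple [Infinite k] (hg : Good a b c h) {i j l : Fin n} (hij : i ≠ j) (hjl : j ≠ l)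
    (hil : i ≠ l) : IrrClosedIn (openSet h) (zS a b c (openSet h) {i, j, l}) :=
  irr_of_param h _ (triple_ne hg i j l) (mem_triple_iff hg hij hjl hil) (closed_zS _)

theorem irr_zS [Infinite k] (hg : Good a b c h) {S : Finset (Fin n)}
    (hS : S.card = 2 ∨ S.card = 3) : IrrClosedIn (openSet h) (zS a b c (openSet h) S) := by
  rcases hS with hS | hS
  · obtain ⟨i, j, hij, rfl⟩ := Finset.card_eq_two.1 hS
    exact irr_pair hg hij
  · obtain ⟨i, j, l, hij, hil, hjl, rfl⟩ := Finset.card_eq_three.1 hS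
    exact irr_triple hg hij hjl hil

/-! ### Separating points -/

/-- A point of `{i, j}` with `e = 1`, `s = 0`, on no other sheet `l`. -/
theorem exists_pair_pt (hg : Good a b c h) {i j l : Fin n} (hij : i ≠ j) (hjl : j ≠ l)
    (hil : i ≠ l) : ∃ Q ∈ zS a b c (openSet h) {i, j}, eval Q (sheet a b c l) ≠ 0 ∧ Q 3 ≠ 0 := by
  have h5 : eval (0 : Fin 7 → k) (dt a b i j l) ≠ 0 := hg.dt_ne hg.zero_mem hij hjl hil
  have h6 : a i - a j ≠ 0 := sub_ne_zero.2 fun h7 => hij (hg.a_inj h7)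
  have hbs : dt a b i j l ∈ sAlg k := by
    unfold dt
    exact add_mem (add_mem (mul_mem (Subalgebra.algebraMap_mem _ _) (hg.b_s i))
      (mul_mem (Subalgebra.algebraMap_mem _ _) (hg.b_s j)))
      (mul_mem (Subalgebra.algebraMap_mem _ _) (hg.b_s l))
  have hcs : dt a c i j l ∈ sAlg k := by
    unfold dt
    exact add_mem (add_mem (mul_mem (Subalgebra.algebraMap_mem _ _) (hg.c_s i))
      (mul_mem (Subalgebra.algebraMap_mem _ _) (hg.c_s j)))
      (mul_mem (Subalgebra.algebraMap_mem _ _) (hg.c_s l))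
  set β := eval (0 : Fin 7 → k) (dt a b i j l)
  set γ := eval (0 : Fin 7 → k) (dt a c i j l)
  let P : Fin 7 → k := ![0, 0, (1 - γ) / β, 1, 0, 0, 0]
  let Q := ptG a b c (X 2) (X 3) i j P
  have hQ4 : Q 4 = 0 := ptG_4 ..
  have hQ5 : Q 5 = 0 := ptG_5 ..
  have hQ6 : Q 6 = 0 := ptG_6 ..
  have hQ2 : Q 2 = (1 - γ) / β := (ptG_2 a b c (X 2) (X 3) i j P).trans (by simp [P])
  have hQ3 : Q 3 = 1 := (ptG_3 a b c (X 2) (X 3) i j P).trans (by simp [P])
  have hU : Q ∈ openSet h := hg.mem_of_s hQ4 hQ5 hQ6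
  have hF := ptG_sheet (P := P) hg (X 2) (X 3) hij
  refine ⟨Q, ?_, ?_, ?_⟩
  · rw [mem_zS_pair]
    exact ⟨hU, hF⟩
  · intro h7
    have h8 := sheet_rel (a := a) (b := b) (c := c) Q i j l
    have e1 : eval Q (dt a b i j l) = β := sAlg_eval hbs hQ4 hQ5 hQ6
    have e2 : eval Q (dt a c i j l) = γ := sAlg_eval hcs hQ4 hQ5 hQ6
    rw [h7, show eval Q (sheet a b c i) = 0 from hF.1, show eval Q (sheet a b c j) = 0 from hF.2,
      e1, e2, hQ2, hQ3] at h8
    have h9 : β * ((1 - γ) / β) = 1 - γ := by field_simp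
    rw [h9] at h8
    have h10 : (1 : k) = 0 := by linear_combination h8
    exact one_ne_zero h10
  · rw [hQ3]
    exact one_ne_zero

/-- A point of `{i, j, l}` with `e ≠ 0`, `s = 0`, on no other sheet `m`. -/
theorem exists_triple_pt (hg : Good a b c h) {i j l : Fin n} (hij : i ≠ j) (hjl : j ≠ l)
    (hil : i ≠ l) : ∃ Q ∈ zS a b c (openSet h) {i, j, l}, Q 3 ≠ 0 ∧
      ∀ m, m ≠ i → m ≠ j → m ≠ l → eval Q (sheet a b c m) ≠ 0 := by
  have h5 : eval (0 : Fin 7 → k) (dt a b i j l) ≠ 0 := hg.dt_ne hg.zero_mem hij hjl hil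
  have hbs : ∀ i j l, dt a b i j l ∈ sAlg k := by
    intro i j l
    unfold dt
    exact add_mem (add_mem (mul_mem (Subalgebra.algebraMap_mem _ _) (hg.b_s i))
      (mul_mem (Subalgebra.algebraMap_mem _ _) (hg.b_s j)))
      (mul_mem (Subalgebra.algebraMap_mem _ _) (hg.b_s l))
  have hcs : ∀ i j l, dt a c i j l ∈ sAlg k := by
    intro i j l
    unfold dt
    exact add_mem (add_mem (mul_mem (Subalgebra.algebraMap_mem _ _) (hg.c_s i))
      (mul_mem (Subalgebra.algebraMap_mem _ _) (hg.c_s j)))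
      (mul_mem (Subalgebra.algebraMap_mem _ _) (hg.c_s l))
  have hmem := mem_triple_iff (a := a) (b := b) (c := c) hg hij hjl hil
  let P : Fin 7 → k := ![0, 0, 0, 1, 0, 0, 0]
  let Q := ptG a b c (- dt a c i j l * X 3) (dt a b i j l * X 3) i j P
  have hP : ∀ f ∈ sAlg k, eval P f = eval 0 f := fun f hf => sAlg_eval hf rfl rfl rfl
  have hQ4 : Q 4 = 0 := ptG_4 ..
  have hQ5 : Q 5 = 0 := ptG_5 ..
  have hQ6 : Q 6 = 0 := ptG_6 ..
  have hQs : ∀ f ∈ sAlg k, eval Q f = eval 0 f := fun f hf => sAlg_eval hf hQ4 hQ5 hQ6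
  have hQ2 : Q 2 = - eval 0 (dt a c i j l) := by
    refine (ptG_2 a b c (- dt a c i j l * X 3) (dt a b i j l * X 3) i j P).trans ?_
    rw [map_mul, map_neg, hP _ (hcs i j l)]
    simp [P]
  have hQ3 : Q 3 = eval 0 (dt a b i j l) := by
    refine (ptG_3 a b c (- dt a c i j l * X 3) (dt a b i j l * X 3) i j P).trans ?_
    rw [map_mul, hP _ (hbs i j l)]
    simp [P]
  have hU : Q ∈ openSet h := hg.mem_of_s hQ4 hQ5 hQ6
  have hF := ptG_sheet (P := P) hg (- dt a c i j l * X 3) (dt a b i j l * X 3) hij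
  refine ⟨Q, (hmem Q).2 ⟨hU, P, rfl⟩, by rw [hQ3]; exact h5, ?_⟩
  intro m hmi hmj hml h7
  have h8 := sheet_rel (a := a) (b := b) (c := c) Q i j m
  rw [h7, show eval Q (sheet a b c i) = 0 from hF.1, show eval Q (sheet a b c j) = 0 from hF.2,
    hQs _ (hbs i j m), hQs _ (hcs i j m), hQ2, hQ3] at h8
  have h9 := hg.minor i j l m hij hjl hil hmi hmj hml
  have h10 : eval 0 (dt a b i j l) * (eval 0 (dt a b i j l) * eval 0 (dt a c i j m) -
      eval 0 (dt a b i j m) * eval 0 (dt a c i j l)) = 0 := by linear_combination h8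
  rcases mul_eq_zero.1 h10 with h11 | h11
  · exact h5 h11
  · exact h9 (sub_eq_zero.1 h11)

/-- Only the sheets of `S` contain `zS S`. -/
theorem mem_of_sheet (hg : Good a b c h) {S : Finset (Fin n)} (hS : S.card = 2 ∨ S.card = 3)
    {m : Fin n} (h1 : ∀ Q ∈ zS a b c (openSet h) S, eval Q (sheet a b c m) = 0) : m ∈ S := by
  by_contra hm
  rcases hS with hS | hS
  · obtain ⟨i, j, hij, rfl⟩ := Finset.card_eq_two.1 hS
    simp only [Finset.mem_insert, Finset.mem_singleton, not_or] at hm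
    obtain ⟨Q, hQ, h2, -⟩ := exists_pair_pt hg hij (Ne.symm hm.2) (Ne.symm hm.1)
    exact h2 (h1 Q hQ)
  · obtain ⟨i, j, l, hij, hil, hjl, rfl⟩ := Finset.card_eq_three.1 hS
    simp only [Finset.mem_insert, Finset.mem_singleton, not_or] at hm
    obtain ⟨Q, hQ, -, h2⟩ := exists_triple_pt hg hij hjl hil
    exact h2 m hm.1 hm.2.1 hm.2.2 (h1 Q hQ)

theorem subset_of_zS_subset (hg : Good a b c h) {S T : Finset (Fin n)}
    (hS : S.card = 2 ∨ S.card = 3) (h1 : zS a b c (openSet h) S ⊆ zS a b c (openSet h) T) :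
    T ⊆ S := fun m hm => mem_of_sheet hg hS fun _ hQ => (h1 hQ).2.1 m hm

theorem exists_zS_ne (hg : Good a b c h) {S : Finset (Fin n)} (hS : S.card = 2 ∨ S.card = 3) :
    ∃ Q ∈ zS a b c (openSet h) S, Q 3 ≠ 0 := by
  rcases hS with hS | hS
  · obtain ⟨i, j, hij, rfl⟩ := Finset.card_eq_two.1 hS
    obtain ⟨l, hl⟩ : ∃ l, l ∉ ({i, j} : Finset (Fin n)) := by
      by_contra hcon
      push Not at hcon
      have h1 : (Finset.univ : Finset (Fin n)) ⊆ {i, j} := fun x _ => hcon x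
      have h2 := Finset.card_le_card h1
      rw [Finset.card_univ, Fintype.card_fin, hS] at h2
      have := hg.three
      omega
    simp only [Finset.mem_insert, Finset.mem_singleton, not_or] at hl
    obtain ⟨Q, hQ, -, h2⟩ := exists_pair_pt hg hij (Ne.symm hl.2) (Ne.symm hl.1)
    exact ⟨Q, hQ, h2⟩
  · obtain ⟨i, j, l, hij, hil, hjl, rfl⟩ := Finset.card_eq_three.1 hS
    obtain ⟨Q, hQ, h2, -⟩ := exists_triple_pt hg hij hjl hil
    exact ⟨Q, hQ, h2⟩

end Basic

end H51.Zar
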