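import Pool.Agent.H51.Zar.Table

set_option linter.style.longLine false

/-! The table of the strata of an arrangement of sheets: singular points and assembly. -/

namespace H51.Zar

open MvPolynomial H9.Zar

universe v

variable {k : Type v} [Field k] {n : ℕ} {a : Fin n → k} {b c : Fin n → MvPolynomial (Fin 7) k}
  {h : MvPolynomial (Fin 7) k}

/-- The equation of the arrangement. -/
noncomputable def arr (a : Fin n → k) (b c : Fin n → MvPolynomial (Fin 7) k) :
    MvPolynomial (Fin 7) k := ∏ i, sheet a b c i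

theorem pderiv_sheet (hb : ∀ i, b i ∈ sAlg k) (hc : ∀ i, c i ∈ sAlg k) (i : Fin n) :
    pderiv 0 (sheet a b c i) = 1 := by
  have h1 : ∀ f ∈ sAlg k, pderiv (0 : Fin 7) f = 0 := by
    intro f hf
    refine Algebra.adjoin_induction (fun x hx => ?_) (fun r => ?_) (fun x y _ _ hx hy => ?_)
      (fun x y _ _ hx hy => ?_) hf
    · rcases hx with rfl | rfl | rfl <;> rw [pderiv_X_of_ne (by decide)]
    · exact pderiv_C
    · rw [map_add, hx, hy, add_zero]
    · rw [Derivation.leibniz, hx, hy, smul_zero, smul_zero, add_zero]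
  unfold sheet
  simp [Derivation.leibniz, h1 _ (hb i), h1 _ (hc i), pderiv_X_of_ne (show (1 : Fin 7) ≠ 0 by decide),
    pderiv_X_of_ne (show (2 : Fin 7) ≠ 0 by decide), pderiv_X_of_ne (show (3 : Fin 7) ≠ 0 by decide)]

theorem arr_eq (i : Fin n) : arr a b c = sheet a b c i * ∏ j ∈ Finset.univ.erase i, sheet a b c j :=
  (Finset.mul_prod_erase Finset.univ (sheet a b c) (Finset.mem_univ i)).symm

theorem eval_arr (Q : Fin 7 → k) : eval Q (arr a b c) = 0 ↔ ∃ i, eval Q (sheet a b c i) = 0 := by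
  unfold arr
  rw [map_prod, Finset.prod_eq_zero_iff]
  simp

/-- The singular points are the points on two sheets. -/
theorem mem_sing_iff (hb : ∀ i, b i ∈ sAlg k) (hc : ∀ i, c i ∈ sAlg k) (Q : Fin 7 → k) :
    Q ∈ singPts (arr a b c) ↔ ∃ i j, i ≠ j ∧ eval Q (sheet a b c i) = 0 ∧
      eval Q (sheet a b c j) = 0 := by
  constructor
  · rintro ⟨h1, h2⟩
    obtain ⟨i, hi⟩ := (eval_arr Q).1 h1
    have h3 := h2 0
    rw [arr_eq i, Derivation.leibniz, pderiv_sheet hb hc i] at h3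
    simp only [smul_eq_mul, map_add, map_mul, hi, zero_mul, zero_add, mul_one, map_prod] at h3
    obtain ⟨j, hj, h4⟩ := Finset.prod_eq_zero_iff.1 h3
    exact ⟨i, j, (Finset.ne_of_mem_erase hj).symm, hi, h4⟩
  · rintro ⟨i, j, hij, hi, hj⟩
    refine ⟨(eval_arr Q).2 ⟨i, hi⟩, fun x => ?_⟩
    have h5 : eval Q (∏ j ∈ Finset.univ.erase i, sheet a b c j) = 0 := by
      rw [map_prod]
      exact Finset.prod_eq_zero (Finset.mem_erase.2 ⟨hij.symm, Finset.mem_univ _⟩) hj
    rw [arr_eq i, Derivation.leibniz]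
    simp only [smul_eq_mul, map_add, map_mul, hi, zero_mul, zero_add, h5]

theorem mem_simple_iff (hb : ∀ i, b i ∈ sAlg k) (hc : ∀ i, c i ∈ sAlg k) {Q : Fin 7 → k} {i : Fin n}
    (hi : eval Q (sheet a b c i) = 0) (hj : ∀ j, j ≠ i → eval Q (sheet a b c j) ≠ 0) :
    Q ∈ simplePts (arr a b c) := by
  have h1 : Q ∈ simplePts (arr a b c) ∪ singPts (arr a b c) := by
    rw [simple_union_sing]
    exact (eval_arr Q).2 ⟨i, hi⟩
  rcases h1 with h1 | h1
  · exact h1
  · exfalso
    obtain ⟨x, y, hxy, hx, hy⟩ := (mem_sing_iff hb hc Q).1 h1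
    by_cases h2 : x = i
    · subst h2
      exact hj y hxy.symm hy
    · exact hj x h2 hx

/-! ### Density of the simple points -/

/-- The sheet `i` in `U`. -/
def zH (a : Fin n → k) (b c : Fin n → MvPolynomial (Fin 7) k) (U : Set (Fin 7 → k)) (i : Fin n) :
    Set (Fin 7 → k) := {Q | Q ∈ U ∧ eval Q (sheet a b c i) = 0}

/-- The parametrization of a sheet. -/
noncomputable def phiH (a : Fin n → k) (b c : Fin n → MvPolynomial (Fin 7) k) (i : Fin n) :
    MvPolynomial (Fin 7) k →ₐ[k] MvPolynomial (Fin 7) k :=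
  aeval ![C (a i) * X 1 + X 3 * (b i * X 2 + c i * X 3), X 1, X 2, X 3, X 4, X 5, X 6]

theorem irr_zH [Infinite k] (hg : Good a b c h) (i : Fin n) :
    IrrClosedIn (openSet h) (zH a b c (openSet h) i) := by
  refine irr_of_param h (phiH a b c i) (phi_ne hg _ fun x => ?_) (fun Q => ?_) ?_
  · fin_cases x <;> simp [phiH]
  · constructor
    · rintro ⟨h1, h2⟩
      refine ⟨h1, Q, ?_⟩
      rw [eval_sheet] at h2
      funext x
      fin_cases x
      · simp [phiH]
        linear_combination h2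
      all_goals simp [phiH]
    · rintro ⟨h1, P, hP⟩
      refine ⟨h1, ?_⟩
      have h0 : Q 0 = a i * P 1 + P 3 * (eval P (b i) * P 2 + eval P (c i) * P 3) := by
        rw [hP]
        simp [phiH]
      have h1 : Q 1 = P 1 := by
        rw [hP]
        simp [phiH]
      have h2 : Q 2 = P 2 := by
        rw [hP]
        simp [phiH]
      have h3 : Q 3 = P 3 := by
        rw [hP]
        simp [phiH]
      have h4 : Q 4 = P 4 := by
        rw [hP]
        simp [phiH]
      have h5 : Q 5 = P 5 := by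
        rw [hP]
        simp [phiH]
      have h6 : Q 6 = P 6 := by
        rw [hP]
        simp [phiH]
      rw [eval_sheet, sAlg_eval (hg.b_s i) h4 h5 h6, sAlg_eval (hg.c_s i) h4 h5 h6, h0, h1, h2, h3]
      ring
  · refine closed_of_eqs {sheet a b c i} fun Q => ?_
    simp [zH]

theorem dense_simple [Infinite k] (hg : Good a b c h) :
    zcl (simplePts (arr a b c) ∩ openSet h) ∩ openSet h =
      {Q ∈ openSet h | eval Q (arr a b c) = 0} := by
  classical
  refine subset_antisymm ?_ ?_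
  · rintro Q ⟨hQ, hQU⟩
    refine ⟨hQU, ?_⟩
    have h1 : arr a b c ∈ vanishingIdeal k (simplePts (arr a b c) ∩ openSet h) := by
      intro y hy
      have := hy.1.1
      simpa using this
    have := hQ _ h1
    simpa using this
  · rintro Q ⟨hQU, hQ⟩
    obtain ⟨i, hi⟩ := (eval_arr Q).1 hQ
    let A : Option (Fin n) → Set (Fin 7 → k) := fun o =>
      o.elim (simplePts (arr a b c) ∩ openSet h) (zH a b c (openSet h))
    have h1 : zH a b c (openSet h) i ⊆
        ⋃ o ∈ ({none} ∪ Option.some '' {j | j ≠ i} : Set (Option (Fin n))),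
          (zcl (A o) ∩ openSet h) := by
      rintro x ⟨hxU, hxi⟩
      by_cases hx : ∃ j, j ≠ i ∧ eval x (sheet a b c j) = 0
      · obtain ⟨j, hji, hj⟩ := hx
        exact Set.mem_iUnion₂.2 ⟨some j, Or.inr ⟨j, hji, rfl⟩, subset_zcl _ ⟨hxU, hj⟩, hxU⟩
      · push Not at hx
        exact Set.mem_iUnion₂.2 ⟨none, Or.inl rfl,
          subset_zcl _ ⟨mem_simple_iff hg.b_s hg.c_s hxi hx, hxU⟩, hxU⟩
    obtain ⟨o, ho, h2⟩ := subset_of_subset_iUnion_in (irr_zH hg i) _ A h1
    rcases ho with ho | ⟨j, hj, rfl⟩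
    · rw [Set.mem_singleton_iff] at ho
      subst ho
      exact h2 ⟨hQU, hi⟩
    · exfalso
      have h3 : zcl (A (some j)) ∩ openSet h = zH a b c (openSet h) j := (irr_zH hg j).1
      rw [h3] at h2
      let P : Fin 7 → k := ![a i, 1, 0, 0, 0, 0, 0]
      have hP : P ∈ openSet h := hg.mem_of_s rfl rfl rfl
      have h4 : P ∈ zH a b c (openSet h) i := ⟨hP, by simp [eval_sheet, P]⟩
      have h5 := (h2 h4).2
      have h6 : a i - a j = 0 := by simpa [eval_sheet, P] using h5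
      exact hj (hg.a_inj (sub_eq_zero.1 h6)).symm

/-! ### Assembly -/

theorem card_pair_ne (hg : Good a b c h) {S : Finset (Fin n)} (hS : S.card = 2) :
    ∃ l, l ∉ S := by
  by_contra hcon
  push Not at hcon
  have h1 : (Finset.univ : Finset (Fin n)) ⊆ S := fun x _ => hcon x
  have h2 := Finset.card_le_card h1
  rw [Finset.card_univ, Fintype.card_fin, hS] at h2
  have := hg.three
  omega

/-- All sheets vanish on `B⁺`. -/
theorem sheet_of_Bp {U : Set (Fin 7 → k)} {Q : Fin 7 → k} (hQ : Q ∈ zBp U) (i : Fin n) :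
    eval Q (sheet a b c i) = 0 := by
  obtain ⟨-, h0, h1, h3⟩ := hQ
  rw [eval_sheet, h0, h1, h3]
  ring

theorem Bp_of_two (ha : Function.Injective a) {U : Set (Fin 7 → k)} {Q : Fin 7 → k} (hQ : Q ∈ U)
    {i j : Fin n} (hij : i ≠ j) (hi : eval Q (sheet a b c i) = 0)
    (hj : eval Q (sheet a b c j) = 0) (h3 : Q 3 = 0) : Q ∈ zBp U := by
  rw [eval_sheet, h3] at hi hj
  have h6 : a i - a j ≠ 0 := sub_ne_zero.2 fun h7 => hij (ha h7)
  have h1 : (a i - a j) * Q 1 = 0 := by linear_combination hj - hi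
  have h2 := (mul_eq_zero.1 h1).resolve_left h6
  refine ⟨hQ, ?_, h2, h3⟩
  rw [h2] at hi
  linear_combination hi

theorem zB_sub_zS {U : Set (Fin 7 → k)} (S : Finset (Fin n)) : zB U ⊆ zS a b c U S := by
  rintro Q ⟨h, h0, h1, h2, h3⟩
  refine ⟨h, fun i _ => sheet_of_Bp ⟨h, h0, h1, h3⟩ i, fun i _ j _ l _ => ?_⟩
  rw [h2, h3]
  ring

theorem zB_of_triple (hg : Good a b c h) {S : Finset (Fin n)} (hS : S.card = 3) {Q : Fin 7 → k}
    (hQ : Q ∈ zS a b c (openSet h) S) (h3 : Q 3 = 0) : Q ∈ zB (openSet h) := by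
  obtain ⟨i, j, l, hij, hil, hjl, rfl⟩ := Finset.card_eq_three.1 hS
  obtain ⟨hU, hF, hd⟩ := hQ
  obtain ⟨-, h0, h1, -⟩ := Bp_of_two hg.a_inj hU hij (hF i (by simp)) (hF j (by simp)) h3
  refine ⟨hU, h0, h1, ?_, h3⟩
  have h4 := hd i (by simp) j (by simp) l (by simp)
  rw [h3, mul_zero, add_zero] at h4
  exact (mul_eq_zero.1 h4).resolve_left (hg.dt_ne hU hij hjl hil)

theorem mem_bad_pair (hg : Good a b c h) {S : Finset (Fin n)} (hS : S.card = 2) {Q : Fin 7 → k}
    (hQ : Q ∈ zS a b c (openSet h) S) : (∃ l, l ∉ S ∧ eval Q (sheet a b c l) = 0) ↔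
    Q ∈ zBp (openSet h) ∨ ∃ T : Finset (Fin n), S ⊆ T ∧ T.card = 3 ∧ Q ∈ zS a b c (openSet h) T := by
  constructor
  · rintro ⟨l, hl, h1⟩
    obtain ⟨i, j, hij, rfl⟩ := Finset.card_eq_two.1 hS
    simp only [Finset.mem_insert, Finset.mem_singleton, not_or] at hl
    obtain ⟨hU, hF, -⟩ := hQ
    have hi := hF i (by simp)
    have hj := hF j (by simp)
    have h2 := sheet_rel (a := a) (b := b) (c := c) Q i j l
    rw [hi, hj, h1] at h2
    have h3 : Q 3 * (eval Q (dt a b i j l) * Q 2 + eval Q (dt a c i j l) * Q 3) = 0 := by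
      linear_combination h2
    rcases mul_eq_zero.1 h3 with h4 | h4
    · exact Or.inl (Bp_of_two hg.a_inj hU hij hi hj h4)
    · refine Or.inr ⟨{i, j, l}, ?_, ?_, ?_⟩
      · intro x hx
        simp only [Finset.mem_insert, Finset.mem_singleton] at hx ⊢
        tauto
      · exact Finset.card_eq_three.2 ⟨i, j, l, hij, Ne.symm hl.1, Ne.symm hl.2, rfl⟩
      · rw [mem_zS_triple hg.a_inj hij]
        exact ⟨hU, hi, hj, h4⟩
  · rintro (h1 | ⟨T, hST, hT, h1⟩)
    · obtain ⟨l, hl⟩ := card_pair_ne hg hS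
      exact ⟨l, hl, sheet_of_Bp h1 l⟩
    · have h2 : ∃ l ∈ T, l ∉ S := by
        by_contra hcon
        push Not at hcon
        have h3 := Finset.card_le_card (show T ⊆ S from fun x hx => hcon x hx)
        omega
      obtain ⟨l, hlT, hlS⟩ := h2
      exact ⟨l, hlS, h1.2.1 l hlT⟩

/-- The facts on equisingularity which are needed for the table. -/
structure EqFacts (F : MvPolynomial (Fin 7) k) (a : Fin n → k) (b c : Fin n → MvPolynomial (Fin 7) k)
    (U : Set (Fin 7 → k)) : Prop where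
  pair : ∀ S : Finset (Fin n), S.card = 2 → ∀ Q ∈ zS a b c U S,
    (EquisingAt F Q (vanishingIdeal k (zS a b c U S)) ↔ ∀ l ∉ S, eval Q (sheet a b c l) ≠ 0)
  triple : ∀ S : Finset (Fin n), S.card = 3 → ∀ Q ∈ zS a b c U S,
    (EquisingAt F Q (vanishingIdeal k (zS a b c U S)) ↔ Q 3 ≠ 0)
  Bp : ∀ Q ∈ zBp U, (EquisingAt F Q (vanishingIdeal k (zBp U)) ↔ Q 2 ≠ 0)
  B : ∀ Q ∈ zB U, (EquisingAt F Q (vanishingIdeal k (zB U)) ↔ ¬ (Q 4 = 0 ∧ Q 5 * Q 6 = 0))
  Ma : ∀ Q ∈ zMa U, EquisingAt F Q (vanishingIdeal k (zMa U))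
  Mb : ∀ Q ∈ zMb U, EquisingAt F Q (vanishingIdeal k (zMb U))

theorem zZ_irr [Infinite k] (hg : Good a b c h) (o : Idx n) :
    IrrClosedIn (openSet h) (zZ a b c (openSet h) o) := by
  match o with
  | Sum.inl S => exact irr_zS hg S.2
  | Sum.inr 0 =>
    show IrrClosedIn (openSet h) (zBp (openSet h))
    rw [zBp_eq]
    exact irr_zC hg _
  | Sum.inr 1 =>
    show IrrClosedIn (openSet h) (zB (openSet h))
    rw [zB_eq]
    exact irr_zC hg _
  | Sum.inr 2 =>
    show IrrClosedIn (openSet h) (zMa (openSet h))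
    rw [zMa_eq]
    exact irr_zC hg _
  | Sum.inr 3 =>
    show IrrClosedIn (openSet h) (zMb (openSet h))
    rw [zMb_eq]
    exact irr_zC hg _

/-- Some coordinate subspaces. -/
def tC : Fin 4 → Finset (Fin 7) := ![{0, 1, 3}, {0, 1, 2, 3}, {0, 1, 2, 3, 4, 5}, {0, 1, 2, 3, 4, 6}]

theorem zZ_inr (U : Set (Fin 7 → k)) (x : Fin 4) : zZ a b c U (Sum.inr x) = zC U (tC x) := by
  fin_cases x
  · exact zBp_eq U
  · exact zB_eq U
  · exact zMa_eq U
  · exact zMb_eq U

theorem zS_not_sub (hg : Good a b c h) {S : Finset (Fin n)} (hS : S.card = 2 ∨ S.card = 3)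
    (x : Fin 4) : ¬ zS a b c (openSet h) S ⊆ zC (openSet h) (tC x) := by
  intro h1
  obtain ⟨Q, hQ, h2⟩ := exists_zS_ne hg hS
  exact h2 ((h1 hQ).2 3 (by fin_cases x <;> decide))

theorem zZ_inj [Infinite k] (hg : Good a b c h) : Function.Injective (zZ a b c (openSet h)) := by
  rintro (S | x) (T | y) hST
  · have h1 : S.1 = T.1 := subset_antisymm
      (subset_of_zS_subset hg T.2 (show zS a b c (openSet h) T.1 ⊆ zS a b c (openSet h) S.1 from
        hST.ge))
      (subset_of_zS_subset hg S.2 (show zS a b c (openSet h) S.1 ⊆ zS a b c (openSet h) T.1 from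
        hST.le))
    rw [Subtype.ext h1]
  · rw [zZ_inr] at hST
    exact absurd hST.le (zS_not_sub hg S.2 y)
  · rw [zZ_inr] at hST
    exact absurd hST.ge (zS_not_sub hg T.2 x)
  · rw [zZ_inr, zZ_inr] at hST
    have h1 : tC x = tC y := subset_antisymm (mem_of_zC_subset hg hST.ge)
      (mem_of_zC_subset hg hST.le)
    have key : ∀ x y : Fin 4, tC x = tC y → x = y := by decide
    rw [key x y h1]

theorem zBp_not_sub (hg : Good a b c h) {S : Finset (Fin n)} (hS : S.card = 3) :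
    ¬ zBp (openSet h) ⊆ zS a b c (openSet h) S := by
  intro h1
  obtain ⟨i, j, l, hij, hil, hjl, rfl⟩ := Finset.card_eq_three.1 hS
  let P : Fin 7 → k := ![0, 0, 1, 0, 0, 0, 0]
  have hP : P ∈ openSet h := hg.mem_of_s rfl rfl rfl
  have h2 := (h1 (show P ∈ zBp (openSet h) from ⟨hP, rfl, rfl, rfl⟩)).2.2 i (by simp) j (by simp)
    l (by simp)
  have h3 : P 2 = 1 := rfl
  have h4 : P 3 = 0 := rfl
  rw [h3, h4, mul_zero, add_zero, mul_one] at h2
  exact hg.dt_ne hP hij hjl hil h2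

/-- The table. -/
theorem isTable [Infinite k] (hg : Good a b c h) (hE : EqFacts (arr a b c) a b c (openSet h)) :
    IsTable (arr a b c) (openSet h) (zZ a b c (openSet h)) (tTop n) (tJ n) := by
  classical
  refine ⟨zZ_irr hg, zZ_inj hg, dense_simple hg, ?_, ?_, ?_, ?_, ?_, ?_⟩
  · -- the singular locus
    ext Q
    constructor
    · rintro ⟨h1, hU⟩
      obtain ⟨i, j, hij, hi, hj⟩ := (mem_sing_iff hg.b_s hg.c_s Q).1 h1
      refine Set.mem_iUnion₂.2 ⟨Sum.inl ⟨{i, j}, Or.inl (Finset.card_eq_two.2 ⟨i, j, hij, rfl⟩)⟩,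
        ⟨_, rfl, Finset.card_eq_two.2 ⟨i, j, hij, rfl⟩⟩, ?_⟩
      exact mem_zS_pair.2 ⟨hU, hi, hj⟩
    · intro hQ
      obtain ⟨o, ⟨S, rfl, hS⟩, hQS⟩ := Set.mem_iUnion₂.1 hQ
      obtain ⟨hU, hF, -⟩ : Q ∈ zS a b c (openSet h) S.1 := hQS
      obtain ⟨i, j, hij, hS2⟩ := Finset.card_eq_two.1 hS
      exact ⟨(mem_sing_iff hg.b_s hg.c_s Q).2 ⟨i, j, hij, hF i (by simp [hS2]), hF j (by simp [hS2])⟩,
        hU⟩
  · -- incomparability of the components of the singular locus
    rintro o ⟨S, rfl, hS⟩ o' ⟨T, rfl, hT⟩ h1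
    have h2 : T.1 ⊆ S.1 := subset_of_zS_subset hg S.2 h1
    rw [Subtype.ext (Finset.eq_of_subset_of_card_le h2 (by omega))]
  · -- the bad loci
    intro o
    match o with
    | Sum.inl S =>
      show {Q ∈ zS a b c (openSet h) S.1 | ¬ EquisingAt (arr a b c) Q (vanishingIdeal k
        (zS a b c (openSet h) S.1))} = _
      rcases S.2 with hS | hS
      · ext Q
        constructor
        · rintro ⟨hQ, hbad⟩
          rw [hE.pair S.1 hS Q hQ] at hbad
          push Not at hbad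
          rcases (mem_bad_pair hg hS hQ).1 hbad with h1 | ⟨T, hST, hT, h1⟩
          · exact Set.mem_iUnion₂.2 ⟨Sum.inr 0, Or.inl ⟨hS, Or.inl rfl⟩, h1⟩
          · exact Set.mem_iUnion₂.2 ⟨Sum.inl ⟨T, Or.inr hT⟩, Or.inl ⟨hS, Or.inr ⟨_, rfl, hST, hT⟩⟩, h1⟩
        · intro hQ
          obtain ⟨o, ho, hQo⟩ := Set.mem_iUnion₂.1 hQ
          rcases ho with ⟨-, ho⟩ | ⟨ho, -⟩
          · rcases ho with rfl | ⟨T, rfl, hST, hT⟩
            · have hQo' : Q ∈ zBp (openSet h) := hQo
              have hQS : Q ∈ zS a b c (openSet h) S.1 := by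
                obtain ⟨i, j, hij, hS2⟩ := Finset.card_eq_two.1 hS
                rw [hS2]
                exact mem_zS_pair.2 ⟨hQo'.1, sheet_of_Bp hQo' i, sheet_of_Bp hQo' j⟩
              refine ⟨hQS, ?_⟩
              rw [hE.pair S.1 hS Q hQS]
              push Not
              exact (mem_bad_pair hg hS hQS).2 (Or.inl hQo')
            · have hQo' : Q ∈ zS a b c (openSet h) T.1 := hQo
              have hQS : Q ∈ zS a b c (openSet h) S.1 :=
                ⟨hQo'.1, fun i hi => hQo'.2.1 i (hST hi), fun i hi j hj l hl =>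
                  hQo'.2.2 i (hST hi) j (hST hj) l (hST hl)⟩
              refine ⟨hQS, ?_⟩
              rw [hE.pair S.1 hS Q hQS]
              push Not
              exact (mem_bad_pair hg hS hQS).2 (Or.inr ⟨T.1, hST, hT, hQo'⟩)
          · omega
      · ext Q
        constructor
        · rintro ⟨hQ, hbad⟩
          rw [hE.triple S.1 hS Q hQ, not_not] at hbad
          exact Set.mem_iUnion₂.2 ⟨Sum.inr 1, Or.inr ⟨hS, rfl⟩, zB_of_triple hg hS hQ hbad⟩
        · intro hQ
          obtain ⟨o, ho, hQo⟩ := Set.mem_iUnion₂.1 hQ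
          rcases ho with ⟨ho, -⟩ | ⟨-, rfl⟩
          · omega
          · have hQo' : Q ∈ zB (openSet h) := hQo
            have hQS : Q ∈ zS a b c (openSet h) S.1 := zB_sub_zS S.1 hQo'
            refine ⟨hQS, ?_⟩
            rw [hE.triple S.1 hS Q hQS, not_not]
            exact hQo'.2.2.2.2
    | Sum.inr 0 =>
      show {Q ∈ zBp (openSet h) | ¬ EquisingAt (arr a b c) Q (vanishingIdeal k
        (zBp (openSet h)))} = ⋃ j ∈ ({Sum.inr 1} : Set (Idx n)), _
      rw [Set.biUnion_singleton]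
      ext Q
      constructor
      · rintro ⟨hQ, hbad⟩
        rw [hE.Bp Q hQ, not_not] at hbad
        exact ⟨hQ.1, hQ.2.1, hQ.2.2.1, hbad, hQ.2.2.2⟩
      · intro hQ
        have hQ' : Q ∈ zB (openSet h) := hQ
        have hQS : Q ∈ zBp (openSet h) := ⟨hQ'.1, hQ'.2.1, hQ'.2.2.1, hQ'.2.2.2.2⟩
        refine ⟨hQS, ?_⟩
        rw [hE.Bp Q hQS, not_not]
        exact hQ'.2.2.2.1
    | Sum.inr 1 =>
      show {Q ∈ zB (openSet h) | ¬ EquisingAt (arr a b c) Q (vanishingIdeal k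
        (zB (openSet h)))} = ⋃ j ∈ ({Sum.inr 2, Sum.inr 3} : Set (Idx n)), _
      rw [Set.biUnion_pair]
      ext Q
      constructor
      · rintro ⟨hQ, hbad⟩
        rw [hE.B Q hQ, not_not, mul_eq_zero] at hbad
        rcases hbad.2 with h1 | h1
        · exact Or.inl ⟨hQ, hbad.1, h1⟩
        · exact Or.inr ⟨hQ, hbad.1, h1⟩
      · intro hQ
        rcases hQ with hQ | hQ
        · have hQ' : Q ∈ zMa (openSet h) := hQ
          refine ⟨hQ'.1, ?_⟩
          rw [hE.B Q hQ'.1, not_not, mul_eq_zero]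
          exact ⟨hQ'.2.1, Or.inl hQ'.2.2⟩
        · have hQ' : Q ∈ zMb (openSet h) := hQ
          refine ⟨hQ'.1, ?_⟩
          rw [hE.B Q hQ'.1, not_not, mul_eq_zero]
          exact ⟨hQ'.2.1, Or.inr hQ'.2.2⟩
    | Sum.inr 2 =>
      show {Q ∈ zMa (openSet h) | ¬ EquisingAt (arr a b c) Q (vanishingIdeal k
        (zMa (openSet h)))} = ⋃ j ∈ (∅ : Set (Idx n)), _
      rw [Set.biUnion_empty, Set.eq_empty_iff_forall_notMem]
      rintro Q ⟨hQ, hbad⟩
      exact hbad (hE.Ma Q hQ)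
    | Sum.inr 3 =>
      show {Q ∈ zMb (openSet h) | ¬ EquisingAt (arr a b c) Q (vanishingIdeal k
        (zMb (openSet h)))} = ⋃ j ∈ (∅ : Set (Idx n)), _
      rw [Set.biUnion_empty, Set.eq_empty_iff_forall_notMem]
      rintro Q ⟨hQ, hbad⟩
      exact hbad (hE.Mb Q hQ)
  · -- incomparability in the bad loci
    intro o
    match o with
    | Sum.inl S =>
      intro p hp q hq hpq
      rcases hp with ⟨hS, hp⟩ | ⟨hS, rfl⟩
      · rcases hq with ⟨-, hq⟩ | ⟨hS', -⟩
        · rcases hp with rfl | ⟨T, rfl, hST, hT⟩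
          · rcases hq with rfl | ⟨T', rfl, hST', hT'⟩
            · rfl
            · exact absurd hpq (zBp_not_sub hg hT')
          · rcases hq with rfl | ⟨T', rfl, hST', hT'⟩
            · rw [zZ_inr] at hpq
              exact absurd hpq (zS_not_sub hg T.2 0)
            · have h2 : T'.1 ⊆ T.1 := subset_of_zS_subset hg T.2 hpq
              rw [Subtype.ext (Finset.eq_of_subset_of_card_le h2 (by omega))]
        · omega
      · rcases hq with ⟨hS', -⟩ | ⟨-, rfl⟩
        · omega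
        · rfl
    | Sum.inr 0 =>
      rintro p hp q hq -
      rw [show p = Sum.inr 1 from hp, show q = Sum.inr 1 from hq]
    | Sum.inr 1 =>
      rintro p hp q hq hpq
      have key : ∀ x y : Fin 4, (x = 2 ∨ x = 3) → (y = 2 ∨ y = 3) → tC y ⊆ tC x → x = y := by
        decide
      have hp' : ∃ x : Fin 4, p = Sum.inr x ∧ (x = 2 ∨ x = 3) := by
        rcases hp with hp | hp
        · exact ⟨2, hp, Or.inl rfl⟩
        · exact ⟨3, hp, Or.inr rfl⟩
      have hq' : ∃ x : Fin 4, q = Sum.inr x ∧ (x = 2 ∨ x = 3) := by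
        rcases hq with hq | hq
        · exact ⟨2, hq, Or.inl rfl⟩
        · exact ⟨3, hq, Or.inr rfl⟩
      obtain ⟨x, rfl, hx⟩ := hp'
      obtain ⟨y, rfl, hy⟩ := hq'
      rw [zZ_inr, zZ_inr] at hpq
      rw [key x y hx hy (mem_of_zC_subset hg hpq)]
    | Sum.inr 2 => exact fun p hp => absurd hp (Set.notMem_empty p)
    | Sum.inr 3 => exact fun p hp => absurd hp (Set.notMem_empty p)
  · -- irreflexivity
    intro o
    match o with
    | Sum.inl S =>
      rintro (⟨hS, ho | ⟨T, ho, -, hT⟩⟩ | ⟨hS, ho⟩)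
      · exact absurd ho (by simp)
      · have h1 : S = T := Sum.inl_injective ho
        rw [← h1] at hT
        omega
      · exact absurd ho (by simp)
    | Sum.inr 0 =>
      intro ho
      have h1 : (0 : Fin 4) = 1 := Sum.inr_injective ho
      exact absurd h1 (by decide)
    | Sum.inr 1 =>
      rintro (ho | ho)
      · have h1 : (1 : Fin 4) = 2 := Sum.inr_injective ho
        exact absurd h1 (by decide)
      · have h1 : (1 : Fin 4) = 3 := Sum.inr_injective ho
        exact absurd h1 (by decide)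
    | Sum.inr 2 => exact Set.notMem_empty _
    | Sum.inr 3 => exact Set.notMem_empty _
  · -- every set is reached
    intro o
    match o with
    | Sum.inl S =>
      rcases S.2 with hS | hS
      · exact Or.inl ⟨S, rfl, hS⟩
      · obtain ⟨i, j, l, hij, hil, hjl, hS2⟩ := Finset.card_eq_three.1 hS
        have h2 : ({i, j} : Finset (Fin n)).card = 2 := Finset.card_eq_two.2 ⟨i, j, hij, rfl⟩
        refine Or.inr ⟨Sum.inl ⟨{i, j}, Or.inl h2⟩, Or.inl ⟨h2, Or.inr ⟨S, rfl, ?_, hS⟩⟩⟩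
        rw [hS2]
        intro x hx
        simp only [Finset.mem_insert, Finset.mem_singleton] at hx ⊢
        tauto
    | Sum.inr 0 =>
      have h3 := hg.three
      have h2 : ({⟨0, by omega⟩, ⟨1, by omega⟩} : Finset (Fin n)).card = 2 :=
        Finset.card_eq_two.2 ⟨_, _, by simp [Fin.ext_iff], rfl⟩
      exact Or.inr ⟨Sum.inl ⟨_, Or.inl h2⟩, Or.inl ⟨h2, Or.inl rfl⟩⟩
    | Sum.inr 1 => exact Or.inr ⟨Sum.inr 0, rfl⟩
    | Sum.inr 2 => exact Or.inr ⟨Sum.inr 1, Or.inl rfl⟩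
    | Sum.inr 3 => exact Or.inr ⟨Sum.inr 1, Or.inr rfl⟩

/-- The conclusion: Zariski's stratification exists, and every such stratification has two strata
with a common point. -/
theorem final [Infinite k] (hg : Good a b c h) (hE : EqFacts (arr a b c) a b c (openSet h)) :
    (∃ (N : ℕ) (E : Fin (N + 1) → Set (Fin 7 → k)), IsZStrat (arr a b c) (openSet h) N E) ∧
    ∀ (N : ℕ) (E : Fin (N + 1) → Set (Fin 7 → k)), IsZStrat (arr a b c) (openSet h) N E →
      ∃ i j, i ≠ j ∧ (0 : Fin 7 → k) ∈ E i ∧ (0 : Fin 7 → k) ∈ E j := by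
  have hT := isTable hg hE
  have hB : (0 : Fin 7 → k) ∈ zB (openSet h) := ⟨hg.zero_mem, rfl, rfl, rfl, rfl⟩
  have hMa : (0 : Fin 7 → k) ∈ zMa (openSet h) := ⟨hB, rfl, rfl⟩
  have hMb : (0 : Fin 7 → k) ∈ zMb (openSet h) := ⟨hB, rfl, rfl⟩
  refine ⟨exists_strat' hT, fun N E h1 => ?_⟩
  refine not_disjoint hT (i := Sum.inr 2) (j := Sum.inr 3) ?_ (Q := 0) ?_ ?_ h1
  · intro h2
    have h3 : (2 : Fin 4) = 3 := Sum.inr_injective h2
    exact absurd h3 (by decide)
  · exact ⟨hMa, hE.Ma 0 hMa⟩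
  · exact ⟨hMb, hE.Mb 0 hMb⟩

end H51.Zar
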